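import Pool.Agent.W375.MT.Jet
import Pool.Agent.W428.MOT.Tools

/-!
# Classes of sets which are invariant under a weighted action of the multiplicative group

If `S` is invariant under `z ↦ (b ^ w_i z_i)`, then `[S] - [S ∩ {z_i = 0 if w_i > 0}]` is a multiple of `𝕃 - 1`.
-/

set_option autoImplicit false

namespace Pool.Agent.Run7.h768.QI

open MvPolynomial Pool.Agent.W428.MOT Pool.Agent.W375.MT

section
variable {K : Type} [Field K] {ι : Type}

theorem IsRF.pow' {S : Set (Pt K ι)} {F : Pt K ι → AlgebraicClosure K} (hF : IsRF S F) (k : ℕ) :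
    IsRF S (fun z => F z ^ k) := by
  induction k with
  | zero =>
    simp only [pow_zero]
    exact IsPF.one.isRF S
  | succ k ih =>
    simp only [pow_succ]
    exact ih.mul hF

theorem IsRF.zpow' {S : Set (Pt K ι)} {F : Pt K ι → AlgebraicClosure K} (hF : IsRF S F)
    (h0 : ∀ z ∈ S, F z ≠ 0) (k : ℤ) : IsRF S (fun z => F z ^ k) := by
  rcases k with k | k
  · simp only [Int.ofNat_eq_natCast, zpow_natCast]
    exact IsRF.pow' hF k
  · simp only [zpow_negSucc]
    have h := (IsPF.one.isRF S).div (IsRF.pow' hF (k + 1)) (fun z hz => pow_ne_zero _ (h0 z hz))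
    simpa only [one_div] using h

theorem IsRF.prod' {α : Type} {S : Set (Pt K ι)} (s : Finset α)
    (F : α → Pt K ι → AlgebraicClosure K) (hF : ∀ a ∈ s, IsRF S (F a)) :
    IsRF S (fun z => ∏ a ∈ s, F a z) := by
  classical
  induction s using Finset.induction_on with
  | empty =>
    simp only [Finset.prod_empty]
    exact IsPF.one.isRF S
  | insert a s ha ih =>
    simp only [Finset.prod_insert ha]
    exact (hF a (Finset.mem_insert_self _ _)).mul
      (ih fun b hb => hF b (Finset.mem_insert_of_mem hb))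

theorem Constr.rf_eq_one {S : Set (Pt K ι)} (hS : Constr S) {F : Pt K ι → AlgebraicClosure K}
    (hF : IsRF S F) : Constr {z | z ∈ S ∧ F z = 1} := by
  obtain ⟨P, Q, h⟩ := hF
  have h1 : {z | z ∈ S ∧ F z = 1} = S ∩ {z | aeval z P = aeval z Q} := by
    ext z
    constructor
    · rintro ⟨h2, h3⟩
      obtain ⟨h4, h5⟩ := h z h2
      refine ⟨h2, ?_⟩
      rw [h5, div_eq_one_iff_eq h4] at h3
      exact h3
    · rintro ⟨h2, h3⟩
      obtain ⟨h4, h5⟩ := h z h2
      refine ⟨h2, ?_⟩
      rw [h5, div_eq_one_iff_eq h4]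
      exact h3
  rw [h1]
  exact hS.inter (Constr.eq (IsPF.poly P) (IsPF.poly Q))

/-- the class of a point -/
theorem chi_pt {R : Type} [CommRing R] (M : Meas K R) [Fintype ι] (p : ι → K) :
    M.χ ι ({fun i => algebraMap K (AlgebraicClosure K) (p i)} : Set (Pt K ι)) = 1 := by
  have hc : Constr ({fun i => algebraMap K (AlgebraicClosure K) (p i)} : Set (Pt K ι)) := by
    have h : ({fun i => algebraMap K (AlgebraicClosure K) (p i)} : Set (Pt K ι)) =
        {z | ∀ i, z i = algebraMap K (AlgebraicClosure K) (p i)} := by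
      ext z
      simp only [Set.mem_singleton_iff, Set.mem_ofPred_eq]
      exact ⟨fun h i => by rw [h], fun h => funext h⟩
    rw [h]
    exact Constr.all fun i => Constr.eq (IsPF.coord i) (IsPF.const _)
  rw [← M.point (ι := Fin 0)]
  refine M.iso _ _ hc Constr.univ (fun _ i => i.elim0)
    (fun _ i => algebraMap K (AlgebraicClosure K) (p i))
    (regularOn_poly (fun i => i.elim0) _) (regularOn_poly (fun _ => IsPF.const _) _) ?_ ?_ ?_ ?_
  · intro z _
    exact Set.mem_univ _
  · intro z _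
    exact Set.mem_singleton_iff.2 rfl
  · intro z hz
    rw [Set.mem_singleton_iff.1 hz]
  · intro w _
    funext i
    exact i.elim0

theorem chi_units {R : Type} [CommRing R] (M : Meas K R) :
    M.χ (Fin 1) {x | x 0 ≠ 0} = M.L - 1 := by
  have h1 : ({x | x 0 = 0} : Set (Pt K (Fin 1))) =
      {fun i => algebraMap K (AlgebraicClosure K) ((fun _ => 0 : Fin 1 → K) i)} := by
    ext x
    simp only [Set.mem_singleton_iff, Set.mem_ofPred_eq, map_zero]
    constructor
    · intro h
      funext i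
      rw [Subsingleton.elim i 0, h]
    · rintro rfl
      rfl
  have h2 := M.add ({x | x 0 = 0} : Set (Pt K (Fin 1))) {x | x 0 ≠ 0} (Constr.eqz (IsPF.coord 0))
    (Constr.eqz (IsPF.coord 0)).compl (by
      rw [Set.disjoint_left]
      intro x hx hx'
      exact hx' hx)
  have h3 : ({x | x 0 = 0} : Set (Pt K (Fin 1))) ∪ {x | x 0 ≠ 0} = Set.univ := by
    ext x
    simp only [Set.mem_union, Set.mem_ofPred_eq, Set.mem_univ, iff_true]
    exact em _
  rw [h3] at h2
  have h4 : M.χ (Fin 1) ({x | x 0 = 0} : Set (Pt K (Fin 1))) = 1 := by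
    rw [h1]
    exact chi_pt M _
  rw [h4] at h2
  rw [Meas.L, h2]
  ring

/-- Bezout coefficients for positive weights -/
theorem bezout (T : Finset ι) (hT : T.Nonempty) (w : ι → ℕ) (hw : ∀ i ∈ T, 0 < w i) :
    ∃ (G : ℕ) (d e : ι → ℤ), 0 < G ∧ (∀ i ∈ T, (w i : ℤ) = G * d i) ∧ ∑ i ∈ T, d i * e i = 1 := by
  obtain ⟨d, h1, h2⟩ := Finset.extract_gcd (fun i => (w i : ℤ)) hT
  obtain ⟨e, h3⟩ := Finset.gcd_eq_sum_mul T d
  obtain ⟨i, hi⟩ := hT
  have h4 : (0 : ℤ) ≤ T.gcd (fun i => (w i : ℤ)) := by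
    rw [← Finset.normalize_gcd]
    exact Int.nonneg_of_normalize_eq_self (normalize_idem _)
  obtain ⟨G, hG⟩ := Int.eq_ofNat_of_zero_le h4
  refine ⟨G, d, e, ?_, fun i hi => by rw [← hG]; exact h1 i hi, by rw [← h3, h2]⟩
  rcases Nat.eq_zero_or_pos G with h5 | h5
  · have h6 := h1 i hi
    rw [hG, h5, Nat.cast_zero, zero_mul] at h6
    have h7 := hw i hi
    have h8 : w i = 0 := by exact_mod_cast h6
    omega
  · exact h5

end

section
variable {K : Type} [Field K] {ι : Type} [Fintype ι] {R : Type} [CommRing R]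

/-- A stratum on which some coordinates of positive weight are not zero. -/
theorem chi_stratum (M : Meas K R) (w : ι → ℕ) {S : Set (Pt K ι)} (hS : Constr S)
    (hact : ∀ z ∈ S, ∀ b : AlgebraicClosure K, b ≠ 0 → (fun i => b ^ w i * z i) ∈ S)
    (T : Finset ι) (hT : T.Nonempty) (hw : ∀ i ∈ T, 0 < w i) :
    ∃ x : R, M.χ ι {z | z ∈ S ∧ ∀ i, 0 < w i → (i ∈ T ↔ z i ≠ 0)} = (M.L - 1) * x := by
  classical
  obtain ⟨G, d, e, hG, hd, he⟩ := bezout T hT w hw
  set ST : Set (Pt K ι) := {z | z ∈ S ∧ ∀ i, 0 < w i → (i ∈ T ↔ z i ≠ 0)} with hSTd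
  have hST : Constr ST := by
    refine Constr.and hS (Constr.all fun i => Constr.imp' fun _ => ?_)
    by_cases hi : i ∈ T
    · simp only [hi, true_iff]
      exact Constr.ne (IsPF.coord i) IsPF.zero
    · simp only [hi, false_iff, not_not]
      exact Constr.eqz (IsPF.coord i)
  set act : AlgebraicClosure K → Pt K ι → Pt K ι :=
    fun b z i => (if i ∈ T then b ^ d i else 1) * z i with hactd
  set h : Pt K ι → AlgebraicClosure K := fun z => ∏ i ∈ T, z i ^ e i with hh
  have a0 : ∀ z ∈ ST, ∀ i ∈ T, z i ≠ 0 := fun z hz i hi => (hz.2 i (hw i hi)).1 hi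
  have a1 : ∀ z ∈ ST, h z ≠ 0 := fun z hz => Finset.prod_ne_zero_iff.2
    fun i hi => zpow_ne_zero _ (a0 z hz i hi)
  have a2 : ∀ z ∈ ST, ∀ b : AlgebraicClosure K, b ≠ 0 → act b z ∈ ST := by
    intro z hz b hb
    obtain ⟨b', hb'⟩ := IsAlgClosed.exists_pow_nat_eq b hG
    have hb0 : b' ≠ 0 := by
      rintro rfl
      rw [zero_pow hG.ne'] at hb'
      exact hb hb'.symm
    have h1 : act b z = fun i => b' ^ w i * z i := by
      funext i
      simp only [hactd]
      by_cases hi : i ∈ T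
      · rw [if_pos hi, ← hb', ← zpow_natCast b' (w i), hd i hi, zpow_mul, zpow_natCast]
      · rw [if_neg hi]
        rcases Nat.eq_zero_or_pos (w i) with h2 | h2
        · rw [h2, pow_zero]
        · have h3 : z i = 0 := by
            by_contra h3
            exact hi ((hz.2 i h2).2 h3)
          rw [h3, mul_zero, mul_zero]
    refine ⟨by rw [h1]; exact hact z hz.1 b' hb0, fun i hi => ?_⟩
    rw [hz.2 i hi, h1]
    exact ⟨fun h2 => mul_ne_zero (pow_ne_zero _ hb0) h2,
      fun h2 h3 => h2 (show b' ^ w i * z i = 0 by rw [h3, mul_zero])⟩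
  have a3 : ∀ (z : Pt K ι) (b : AlgebraicClosure K), b ≠ 0 → h (act b z) = b * h z := by
    intro z b hb
    simp only [hh, hactd]
    have h1 : ∀ i ∈ T, ((if i ∈ T then b ^ d i else 1) * z i) ^ e i =
        b ^ (d i * e i) * z i ^ e i := by
      intro i hi
      rw [if_pos hi, mul_zpow, zpow_mul]
    rw [Finset.prod_congr rfl h1, Finset.prod_mul_distrib]
    congr 1
    have h2 : ∀ T' : Finset ι, ∏ i ∈ T', b ^ (d i * e i) = b ^ (∑ i ∈ T', d i * e i) := by
      intro T'
      induction T' using Finset.induction_on with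
      | empty => simp
      | insert a T' ha ih => rw [Finset.prod_insert ha, Finset.sum_insert ha, zpow_add₀ hb, ih]
    rw [h2, he, zpow_one]
  have a4 : ∀ (z : Pt K ι) (b b' : AlgebraicClosure K), b * b' = 1 →
      act b (act b' z) = z := by
    intro z b b' hb
    funext i
    simp only [hactd]
    by_cases hi : i ∈ T
    · rw [if_pos hi, if_pos hi, ← mul_assoc, ← mul_zpow, hb, one_zpow, one_mul]
    · rw [if_neg hi, if_neg hi, one_mul, one_mul]
  have hRh : IsRF ST h := IsRF.prod' T _ fun i hi =>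
    IsRF.zpow' ((IsPF.coord i).isRF ST) (fun z hz => a0 z hz i hi) _
  set B : Set (Pt K ι) := {z | z ∈ ST ∧ h z = 1} with hBd
  have hB : Constr B := Constr.rf_eq_one hST hRh
  have hA : Constr ({x | x 0 ≠ 0} : Set (Pt K (Fin 1))) := (Constr.eqz (IsPF.coord 0)).compl
  refine ⟨M.χ ι B, ?_⟩
  rw [← chi_units M, ← M.prod _ _ hA hB]
  have hP : Constr ({p | (fun i => p (Sum.inl i)) ∈ ({x | x 0 ≠ 0} : Set (Pt K (Fin 1))) ∧
      (fun i => p (Sum.inr i)) ∈ B} : Set (Pt K (Fin 1 ⊕ ι))) :=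
    Constr.and (hA.preimage _ fun i => IsPF.coord _) (hB.preimage _ fun i => IsPF.coord _)
  refine M.iso _ _ hST hP
    (fun z => Sum.elim (fun _ => h z) (act (h z)⁻¹ z))
    (fun p => act (p (Sum.inl 0)) (fun i => p (Sum.inr i))) ?_ ?_ ?_ ?_ ?_ ?_
  · rintro (i | i)
    · exact hRh
    · have h1 : IsRF ST (fun z => (if i ∈ T then (h z)⁻¹ ^ d i else 1) * z i) := by
        refine IsRF.mul ?_ ((IsPF.coord i).isRF ST)
        by_cases hi : i ∈ T
        · simp only [if_pos hi, inv_zpow']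
          exact IsRF.zpow' hRh a1 _
        · simp only [if_neg hi]
          exact IsPF.one.isRF ST
      exact h1
  · intro i
    refine IsRF.mul ?_ ((IsPF.coord (Sum.inr i)).isRF _)
    by_cases hi : i ∈ T
    · simp only [if_pos hi]
      exact IsRF.zpow' ((IsPF.coord (Sum.inl 0)).isRF _) (fun p hp => hp.1) _
    · simp only [if_neg hi]
      exact IsPF.one.isRF _
  · intro z hz
    refine ⟨a1 z hz, ?_⟩
    refine ⟨a2 z hz _ (inv_ne_zero (a1 z hz)), ?_⟩
    change h (act (h z)⁻¹ z) = 1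
    rw [a3 _ _ (inv_ne_zero (a1 z hz)), inv_mul_cancel₀ (a1 z hz)]
  · rintro p ⟨hp1, hp2⟩
    exact a2 _ hp2.1 _ hp1
  · intro z hz
    exact a4 z _ _ (mul_inv_cancel₀ (a1 z hz))
  · rintro p ⟨hp1, hp2⟩
    have h1 : h (act (p (Sum.inl 0)) (fun i => p (Sum.inr i))) = p (Sum.inl 0) := by
      rw [a3 _ _ hp1, hp2.2, mul_one]
    funext j
    rcases j with j | j
    · rw [Sum.elim_inl, h1, Subsingleton.elim j 0]
    · rw [Sum.elim_inr, h1, a4 _ _ _ (inv_mul_cancel₀ hp1)]

/-- **The class of an invariant set.** -/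
theorem chi_invariant (M : Meas K R) (w : ι → ℕ) {S : Set (Pt K ι)} (hS : Constr S)
    (hact : ∀ z ∈ S, ∀ b : AlgebraicClosure K, b ≠ 0 → (fun i => b ^ w i * z i) ∈ S) :
    ∃ x : R, M.χ ι S = M.χ ι {z | z ∈ S ∧ ∀ i, 0 < w i → z i = 0} + (M.L - 1) * x := by
  classical
  set U : Finset ι := Finset.univ.filter (fun i => 0 < w i) with hU
  set ST : Finset ι → Set (Pt K ι) := fun T => {z | z ∈ S ∧ ∀ i, 0 < w i → (i ∈ T ↔ z i ≠ 0)}
    with hSTd
  have hST : ∀ T, Constr (ST T) := by
    intro T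
    refine Constr.and hS (Constr.all fun i => Constr.imp' fun _ => ?_)
    by_cases hi : i ∈ T
    · simp only [hi, true_iff]
      exact Constr.ne (IsPF.coord i) IsPF.zero
    · simp only [hi, false_iff, not_not]
      exact Constr.eqz (IsPF.coord i)
  have h1 : S = ⋃ T ∈ U.powerset, ST T := by
    ext z
    simp only [Set.mem_iUnion, Finset.mem_powerset, exists_prop]
    constructor
    · intro hz
      refine ⟨U.filter (fun i => z i ≠ 0), Finset.filter_subset _ _, hz, fun i hi => ?_⟩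
      simp [hU, hi]
    · rintro ⟨T, -, hz, -⟩
      exact hz
  have h2 : M.χ ι S = ∑ T ∈ U.powerset, M.χ ι (ST T) := by
    rw [h1]
    refine chi_biUnion M _ _ (fun T _ => hST T) ?_
    intro T hT T' hT' hne
    rw [Set.disjoint_left]
    rintro z ⟨-, hz⟩ ⟨-, hz'⟩
    apply hne
    ext i
    by_cases hi : 0 < w i
    · rw [hz i hi, hz' i hi]
    · have h3 : i ∉ U := by simp [hU, hi]
      exact ⟨fun h4 => absurd (Finset.mem_powerset.1 hT h4) h3,
        fun h4 => absurd (Finset.mem_powerset.1 hT' h4) h3⟩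
  have h3 : ∀ T ∈ U.powerset.erase ∅, ∃ x : R, M.χ ι (ST T) = (M.L - 1) * x := by
    intro T hT
    rw [Finset.mem_erase, Finset.mem_powerset] at hT
    refine chi_stratum M w hS hact T (Finset.nonempty_iff_ne_empty.2 hT.1) fun i hi => ?_
    have h4 := hT.2 hi
    rw [hU, Finset.mem_filter] at h4
    exact h4.2
  choose! x hx using h3
  refine ⟨∑ T ∈ U.powerset.erase ∅, x T, ?_⟩
  rw [h2, ← Finset.add_sum_erase _ _ (Finset.empty_mem_powerset U), Finset.sum_congr rfl hx,
    Finset.mul_sum]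
  congr 2
  ext z
  simp only [hSTd, Set.mem_ofPred_eq, Finset.notMem_empty, false_iff, not_not]

end

end Pool.Agent.Run7.h768.QI
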