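import Pool.Agent.W366.SI.I1
import Pool.Agent.W574.HS.Conv
import Pool.Agent.N138.BF.VWc
import Pool.Agent.N101.CB.BG
import Pool.Agent.R852.PP.FE

/-!
# Functional equations of ideals: change of generators, and the graph step `I ↦ (I, w - u)`

By the theorem of Mustata (both directions are in the starting files) a functional equation of the
ideal `(f_j)` with `b` is the same as a functional equation of `∑ y_j f_j` with `(s + 1) b`. So a change
of generators is an automorphism, and the graph step is the step `F ↦ F + t (w - u)` for polynomials.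
-/

set_option autoImplicit false

namespace Pool.Agent.Run7.h768.QI

open MvPolynomial Pool.Agent.W574.SM Pool.Agent.W574.HS
open Pool.Agent.H628R4.TP (IsBFunction weylS)
open Pool.Agent.N138.BF.VW (lift transport mulX_mem pderiv_mem)

/-- multiplication by a polynomial -/
theorem mulP_mem {τ : Type} (p : MvPolynomial τ ℂ) :
    LinearMap.mulLeft ℂ p ∈ weylS τ := by
  induction p using MvPolynomial.induction_on with
  | C c =>
    have h : LinearMap.mulLeft ℂ (C c : MvPolynomial τ ℂ) =
        algebraMap ℂ (Module.End ℂ (MvPolynomial τ ℂ)) c := by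
      apply LinearMap.ext
      intro q
      rw [LinearMap.mulLeft_apply, C_mul']
      rfl
    rw [h]
    exact Subalgebra.algebraMap_mem _ _
  | add p q hp hq =>
    have h : LinearMap.mulLeft ℂ (p + q) = LinearMap.mulLeft ℂ p + LinearMap.mulLeft ℂ q := by
      apply LinearMap.ext
      intro r
      simp [add_mul]
    rw [h]
    exact Subalgebra.add_mem _ hp hq
  | mul_X p i hp =>
    have h : LinearMap.mulLeft ℂ (p * X i) = LinearMap.mulLeft ℂ p * LinearMap.mulLeft ℂ (X i) := by
      apply LinearMap.ext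
      intro r
      simp [mul_assoc]
    rw [h]
    exact Subalgebra.mul_mem _ hp (mulX_mem i)

/-- the chain rule for an automorphism -/
theorem chain_aut {τ : Type} [Fintype τ] (φ : MvPolynomial τ ℂ ≃ₐ[ℂ] MvPolynomial τ ℂ) (i : τ)
    (g : MvPolynomial τ ℂ) :
    φ (pderiv i (φ.symm g)) = ∑ j, φ (pderiv i (φ.symm (X j))) * pderiv j g := by
  classical
  induction g using MvPolynomial.induction_on with
  | C c =>
    rw [show φ.symm (C c : MvPolynomial τ ℂ) = C c from φ.symm.commutes c, pderiv_C, map_zero]
    exact (Finset.sum_eq_zero fun j _ => by rw [pderiv_C, mul_zero]).symm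
  | add p q hp hq =>
    rw [map_add, map_add, map_add, hp, hq, ← Finset.sum_add_distrib]
    refine Finset.sum_congr rfl fun j _ => ?_
    rw [map_add, mul_add]
  | mul_X p j0 hp =>
    rw [map_mul, Derivation.leibniz, smul_eq_mul, smul_eq_mul, map_add, map_mul, map_mul, hp,
      AlgEquiv.apply_symm_apply, AlgEquiv.apply_symm_apply]
    have h2 : ∀ j, φ (pderiv i (φ.symm (X j))) * pderiv j (p * X j0) =
        (if j = j0 then p * φ (pderiv i (φ.symm (X j0))) else 0) +
          X j0 * (φ (pderiv i (φ.symm (X j))) * pderiv j p) := by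
      intro j
      rw [Derivation.leibniz, smul_eq_mul, smul_eq_mul]
      by_cases h3 : j = j0
      · subst h3
        rw [pderiv_X_self, if_pos rfl]
        ring
      · rw [pderiv_X_of_ne (Ne.symm h3), if_neg h3]
        ring
    rw [Finset.sum_congr rfl fun j _ => h2 j, Finset.sum_add_distrib, Finset.sum_ite_eq' _ j0,
      if_pos (Finset.mem_univ _), Finset.mul_sum]

/-- a functional equation and an automorphism -/
theorem isB_aut {τ : Type} [Fintype τ] (φ : MvPolynomial τ ℂ ≃ₐ[ℂ] MvPolynomial τ ℂ)
    (F : MvPolynomial τ ℂ) (b : Polynomial ℂ) (h : IsBFunction F b) : IsBFunction (φ F) b := by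
  have h1 := transport (φ : MvPolynomial τ ℂ →ₐ[ℂ] MvPolynomial τ ℂ) (lift _ ?_ ?_) 1
    one_ne_zero F b h
  · rw [C_1, one_mul] at h1
    exact h1
  · intro i
    refine ⟨_, mulP_mem (φ (X i)), fun q => ?_⟩
    rw [LinearMap.mulLeft_apply]
    exact (map_mul φ _ _).symm
  · intro i
    refine ⟨∑ j, LinearMap.mulLeft ℂ (φ (pderiv i (φ.symm (X j)))) *
        ((pderiv j : Derivation ℂ (MvPolynomial τ ℂ) (MvPolynomial τ ℂ)) :
          MvPolynomial τ ℂ →ₗ[ℂ] MvPolynomial τ ℂ), Subalgebra.sum_mem _ fun j _ =>
      Subalgebra.mul_mem _ (mulP_mem _) (pderiv_mem j), fun q => ?_⟩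
    have h3 := chain_aut φ i (φ q)
    rw [AlgEquiv.symm_apply_apply] at h3
    rw [LinearMap.sum_apply]
    exact h3.symm

/-- a functional equation in more variables -/
theorem isB_rename {σ τ : Type} {e : σ → τ} (he : Function.Injective e) (F : MvPolynomial σ ℂ)
    (b : Polynomial ℂ) (h : IsBFunction F b) : IsBFunction (rename e F) b := by
  have h1 := transport (rename e) (lift _ ?_ ?_) 1 one_ne_zero F b h
  · rw [C_1, one_mul] at h1
    exact h1
  · intro j
    refine ⟨_, mulX_mem (e j), fun q => ?_⟩
    rw [LinearMap.mulLeft_apply, map_mul, rename_X]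
  · intro j
    refine ⟨_, pderiv_mem (e j), fun q => ?_⟩
    exact pderiv_rename he j q

section
variable {σ τ : Type} {e : σ → τ}

/-- the maps `p ↦ ∑ c_k R_k(p)`, `R_k` in the Weyl algebra -/
noncomputable def VV (e : σ → τ) : Submodule ℂ (MvPolynomial σ ℂ →ₗ[ℂ] MvPolynomial τ ℂ) :=
  Submodule.span ℂ {E | ∃ (c : MvPolynomial τ ℂ) (R : Module.End ℂ (MvPolynomial σ ℂ)),
    R ∈ weylS σ ∧ E = LinearMap.mulLeft ℂ c ∘ₗ (rename e).toLinearMap ∘ₗ R}

theorem pderiv_ren (he : Function.Injective e) (i : τ) (p : MvPolynomial σ ℂ) :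
    (∃ j, e j = i ∧ pderiv i (rename e p) = rename e (pderiv j p)) ∨
      pderiv i (rename e p) = 0 := by
  classical
  by_cases h : ∃ j, e j = i
  · obtain ⟨j, rfl⟩ := h
    exact Or.inl ⟨j, rfl, pderiv_rename he j p⟩
  · refine Or.inr (pderiv_eq_zero_of_notMem_vars fun hi => ?_)
    obtain ⟨j, -, hj⟩ := Finset.mem_image.1 (vars_rename e p hi)
    exact h ⟨j, hj⟩

theorem VV_comp (he : Function.Injective e) {Q : Module.End ℂ (MvPolynomial τ ℂ)}
    (hQ : Q ∈ weylS τ) : ∀ E ∈ VV e, Q ∘ₗ E ∈ VV e := by
  classical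
  induction hQ using Algebra.adjoin_induction with
  | mem Q h =>
    intro E hE
    induction hE using Submodule.span_induction with
    | mem E hE =>
      obtain ⟨c, R, hR, rfl⟩ := hE
      rcases h with ⟨i, rfl⟩ | ⟨i, rfl⟩
      · refine Submodule.subset_span ⟨X i * c, R, hR, ?_⟩
        apply LinearMap.ext
        intro p
        simp [mul_assoc]
      · by_cases hi : ∃ j, e j = i
        · obtain ⟨j, rfl⟩ := hi
          have h1 : ((pderiv (e j) : Derivation ℂ (MvPolynomial τ ℂ)
              (MvPolynomial τ ℂ)) : MvPolynomial τ ℂ →ₗ[ℂ] MvPolynomial τ ℂ) ∘ₗ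
              (LinearMap.mulLeft ℂ c ∘ₗ (rename e).toLinearMap ∘ₗ R) =
              LinearMap.mulLeft ℂ c ∘ₗ (rename e).toLinearMap ∘ₗ
                (((pderiv j : Derivation ℂ (MvPolynomial σ ℂ)
              (MvPolynomial σ ℂ)) : MvPolynomial σ ℂ →ₗ[ℂ] MvPolynomial σ ℂ) * R) +
              LinearMap.mulLeft ℂ (pderiv (e j) c) ∘ₗ (rename e).toLinearMap ∘ₗ R := by
            apply LinearMap.ext
            intro p
            change pderiv (e j) (c * rename e (R p)) = c * rename e (pderiv j (R p)) +
              pderiv (e j) c * rename e (R p)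
            rw [Derivation.leibniz, smul_eq_mul, smul_eq_mul, pderiv_rename he]
            ring
          rw [h1]
          exact Submodule.add_mem _ (Submodule.subset_span ⟨c, _,
            Subalgebra.mul_mem _ (pderiv_mem j) hR, rfl⟩)
            (Submodule.subset_span ⟨_, R, hR, rfl⟩)
        · refine Submodule.subset_span ⟨pderiv i c, R, hR, ?_⟩
          apply LinearMap.ext
          intro p
          change pderiv i (c * rename e (R p)) = pderiv i c * rename e (R p)
          rw [Derivation.leibniz, smul_eq_mul, smul_eq_mul]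
          rcases pderiv_ren he i (R p) with ⟨j, hj, -⟩ | h0
          · exact absurd ⟨j, hj⟩ hi
          · rw [h0]
            ring
    | zero =>
      rw [LinearMap.comp_zero]
      exact Submodule.zero_mem _
    | add E E' _ _ h1 h2 =>
      rw [LinearMap.comp_add]
      exact Submodule.add_mem _ h1 h2
    | smul r E _ h1 =>
      rw [LinearMap.comp_smul]
      exact Submodule.smul_mem _ r h1
  | algebraMap r =>
    intro E hE
    exact Submodule.smul_mem _ r hE
  | add Q Q' _ _ h h' =>
    intro E hE
    rw [LinearMap.add_comp]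
    exact Submodule.add_mem _ (h E hE) (h' E hE)
  | mul Q Q' _ _ h h' =>
    intro E hE
    rw [Module.End.mul_eq_comp, LinearMap.comp_assoc]
    exact h _ (h' E hE)

theorem VV_kill (he : Function.Injective e) : ∀ E ∈ VV e,
    ((killCompl he).toLinearMap ∘ₗ E : Module.End ℂ (MvPolynomial σ ℂ)) ∈ weylS σ := by
  intro E hE
  induction hE using Submodule.span_induction with
  | mem E hE =>
    obtain ⟨c, R, hR, rfl⟩ := hE
    have h : ((killCompl he).toLinearMap ∘ₗ (LinearMap.mulLeft ℂ c ∘ₗ
        (rename e).toLinearMap ∘ₗ R) : Module.End ℂ (MvPolynomial σ ℂ)) =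
        LinearMap.mulLeft ℂ (killCompl he c) * R := by
      apply LinearMap.ext
      intro p
      change killCompl he (c * rename e (R p)) = killCompl he c * R p
      rw [map_mul, killCompl_rename_app]
    rw [h]
    exact Subalgebra.mul_mem _ (mulP_mem _) hR
  | zero =>
    rw [LinearMap.comp_zero]
    exact Subalgebra.zero_mem _
  | add E E' _ _ h1 h2 =>
    rw [LinearMap.comp_add]
    exact Subalgebra.add_mem _ h1 h2
  | smul r E _ h1 =>
    rw [LinearMap.comp_smul]
    exact Subalgebra.smul_mem _ h1 r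

/-- free variables can be removed -/
theorem isB_of_rename (he : Function.Injective e) (F : MvPolynomial σ ℂ) (b : Polynomial ℂ)
    (h : IsBFunction (rename e F) b) : IsBFunction F b := by
  classical
  obtain ⟨P, hP⟩ := h
  have hV : (rename e : MvPolynomial σ ℂ →ₐ[ℂ] MvPolynomial τ ℂ).toLinearMap ∈ VV e := by
    refine Submodule.subset_span ⟨1, 1, Subalgebra.one_mem _, ?_⟩
    apply LinearMap.ext
    intro p
    simp
  have hR : ∀ m : ℕ, ((killCompl he).toLinearMap ∘ₗ ((P m : Module.End ℂ (MvPolynomial τ ℂ)) ∘ₗ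
      (rename e : MvPolynomial σ ℂ →ₐ[ℂ] MvPolynomial τ ℂ).toLinearMap) :
        Module.End ℂ (MvPolynomial σ ℂ)) ∈ weylS σ := fun m =>
    VV_kill he _ (VV_comp he (P m).2 _ hV)
  refine ⟨Finsupp.onFinset P.support (fun m => if m ∈ P.support then ⟨_, hR m⟩ else 0)
    (fun m hm => by
      by_contra h
      exact hm (if_neg h)), fun s => ?_⟩
  have h1 := congrArg (killCompl he) (hP s)
  rw [map_mul, map_pow, Finsupp.sum, map_sum, killCompl_rename_app, killCompl_C] at h1
  rw [h1, Finsupp.onFinset_sum]
  · refine Finset.sum_congr rfl fun m hm => ?_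
    rw [map_smul, if_pos hm, ← map_pow]
    rfl
  · intro m
    rw [ZeroMemClass.coe_zero, LinearMap.zero_apply, smul_zero]

end

end Pool.Agent.Run7.h768.QI
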