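import Pool.Agent.Run7.h768.QI.BF
import Pool.Agent.W574.RO.Equiv

/-!
# Functional equations of ideals: change of generators, and the graph step `I ↦ (I, w - u)` (II)
-/

set_option autoImplicit false
set_option linter.unusedSectionVars false

namespace Pool.Agent.Run7.h768.QI

open MvPolynomial Pool.Agent.W574.SM Pool.Agent.W574.HS
open Pool.Agent.H628R4.TP (IsBFunction weylS)

section
variable {τ : Type}

theorem tv_comp (δ : τ → MvPolynomial τ ℂ)
    (h : ∀ a, aeval (fun a => X a + δ a) (δ a) = δ a) :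
    (aeval (fun a => X a + δ a) : MvPolynomial τ ℂ →ₐ[ℂ] MvPolynomial τ ℂ).comp
      (aeval (fun a => X a - δ a)) = AlgHom.id ℂ _ := by
  apply MvPolynomial.algHom_ext
  intro a
  rw [AlgHom.comp_apply, aeval_X, map_sub, aeval_X, h, AlgHom.id_apply, add_sub_cancel_right]

theorem tv_comp' (δ : τ → MvPolynomial τ ℂ)
    (h : ∀ a, aeval (fun a => X a - δ a) (δ a) = δ a) :
    (aeval (fun a => X a - δ a) : MvPolynomial τ ℂ →ₐ[ℂ] MvPolynomial τ ℂ).comp
      (aeval (fun a => X a + δ a)) = AlgHom.id ℂ _ := by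
  apply MvPolynomial.algHom_ext
  intro a
  rw [AlgHom.comp_apply, aeval_X, map_add, aeval_X, h, AlgHom.id_apply, sub_add_cancel]

/-- the automorphism `x_a ↦ x_a + δ_a` -/
noncomputable def tv (δ : τ → MvPolynomial τ ℂ)
    (h : ∀ a, aeval (fun a => X a + δ a) (δ a) = δ a)
    (h' : ∀ a, aeval (fun a => X a - δ a) (δ a) = δ a) :
    MvPolynomial τ ℂ ≃ₐ[ℂ] MvPolynomial τ ℂ :=
  AlgEquiv.ofAlgHom (aeval (fun a => X a + δ a)) (aeval (fun a => X a - δ a)) (tv_comp δ h)
    (tv_comp' δ h')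

end

section
variable {σ ι κ : Type} [Fintype σ] [Fintype ι] [Fintype κ] [DecidableEq ι] [DecidableEq κ]

/-- the change of the variables `y_i` -/
noncomputable def del (α : κ → ι → MvPolynomial σ ℂ) :
    (ι ⊕ κ) ⊕ σ → MvPolynomial ((ι ⊕ κ) ⊕ σ) ℂ :=
  Sum.elim (Sum.elim (fun i => ∑ k, X (Sum.inl (Sum.inr k)) * rename Sum.inr (α k i))
    (fun _ => 0)) (fun _ => 0)

omit [Fintype σ] [Fintype ι] [DecidableEq ι] [DecidableEq κ] in
theorem del_fix (α : κ → ι → MvPolynomial σ ℂ)
    (A : MvPolynomial ((ι ⊕ κ) ⊕ σ) ℂ →ₐ[ℂ] MvPolynomial ((ι ⊕ κ) ⊕ σ) ℂ)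
    (h1 : ∀ k, A (X (Sum.inl (Sum.inr k))) = X (Sum.inl (Sum.inr k)))
    (h2 : ∀ s, A (X (Sum.inr s)) = X (Sum.inr s)) (a : (ι ⊕ κ) ⊕ σ) :
    A (del α a) = del α a := by
  have h3 : ∀ q : MvPolynomial σ ℂ, A (rename Sum.inr q) = rename Sum.inr q := by
    intro q
    have h : A.comp (rename Sum.inr) = rename Sum.inr := by
      apply MvPolynomial.algHom_ext
      intro i
      rw [AlgHom.comp_apply, rename_X, h2]
    exact DFunLike.congr_fun h q
  rcases a with (i | k) | s
  · change A (∑ k, X (Sum.inl (Sum.inr k)) * rename Sum.inr (α k i)) = _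
    rw [map_sum]
    refine Finset.sum_congr rfl fun k _ => ?_
    rw [map_mul, h1, h3]
  · exact map_zero A
  · exact map_zero A

/-- the automorphism `y_i ↦ y_i + ∑ z_k α_{k i}` -/
noncomputable def delE (α : κ → ι → MvPolynomial σ ℂ) :
    MvPolynomial ((ι ⊕ κ) ⊕ σ) ℂ ≃ₐ[ℂ] MvPolynomial ((ι ⊕ κ) ⊕ σ) ℂ :=
  tv (del α)
    (del_fix α _ (fun k => by rw [aeval_X]; exact add_zero _)
      (fun s => by rw [aeval_X]; exact add_zero _))
    (del_fix α _ (fun k => by rw [aeval_X]; exact sub_zero _)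
      (fun s => by rw [aeval_X]; exact sub_zero _))

omit [Fintype σ] in
theorem delE_univ (f : ι → MvPolynomial σ ℂ) (g : κ → MvPolynomial σ ℂ)
    (α : κ → ι → MvPolynomial σ ℂ) (hα : ∀ k, g k = ∑ i, α k i * f i) :
    delE α (rename (Sum.map Sum.inl id) (univ f)) = univ (Sum.elim f g) := by
  have h3 : ∀ q : MvPolynomial σ ℂ, delE α (rename Sum.inr q) = rename Sum.inr q := by
    intro q
    have h : ((delE α : MvPolynomial ((ι ⊕ κ) ⊕ σ) ℂ ≃ₐ[ℂ] MvPolynomial ((ι ⊕ κ) ⊕ σ) ℂ) :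
        MvPolynomial ((ι ⊕ κ) ⊕ σ) ℂ →ₐ[ℂ] MvPolynomial ((ι ⊕ κ) ⊕ σ) ℂ).comp
          (rename Sum.inr : MvPolynomial σ ℂ →ₐ[ℂ] _) = rename Sum.inr := by
      apply MvPolynomial.algHom_ext
      intro i
      rw [AlgHom.comp_apply, rename_X]
      change aeval (fun a => X a + del α a) (X (Sum.inr i)) = _
      rw [aeval_X]
      exact add_zero _
    exact DFunLike.congr_fun h q
  have h4 : ∀ i, delE α (X (Sum.inl (Sum.inl i))) = X (Sum.inl (Sum.inl i)) +
      ∑ k, X (Sum.inl (Sum.inr k)) * rename Sum.inr (α k i) := by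
    intro i
    change aeval (fun a => X a + del α a) (X (Sum.inl (Sum.inl i))) = _
    rw [aeval_X]
    rfl
  unfold univ
  rw [map_sum, map_sum, Fintype.sum_sum_type]
  have h5 : ∀ i, delE α (rename (Sum.map Sum.inl id) (X (Sum.inl i) * rename Sum.inr (f i))) =
      X (Sum.inl (Sum.inl i)) * rename Sum.inr (f i) +
        ∑ k, X (Sum.inl (Sum.inr k)) * (rename Sum.inr (α k i) * rename Sum.inr (f i)) := by
    intro i
    rw [map_mul, rename_X, rename_rename, map_mul]
    change delE α (X (Sum.inl (Sum.inl i))) * delE α (rename Sum.inr (f i)) = _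
    rw [h3, h4, add_mul, Finset.sum_mul]
    simp only [mul_assoc]
  rw [Finset.sum_congr rfl fun i _ => h5 i, Finset.sum_add_distrib, Finset.sum_comm]
  congr 1
  refine Finset.sum_congr rfl fun k _ => ?_
  rw [← Finset.mul_sum, Sum.elim_inr, hα, map_sum]
  congr 1
  exact Finset.sum_congr rfl fun i _ => (map_mul _ _ _).symm

theorem isB_pair (f : ι → MvPolynomial σ ℂ) (g : κ → MvPolynomial σ ℂ)
    (h : ∀ k, g k ∈ Ideal.span (Set.range f)) (B : Polynomial ℂ) :
    IsBFunction (univ f) B ↔ IsBFunction (univ (Sum.elim f g)) B := by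
  have h1 : ∀ k, ∃ c : ι → MvPolynomial σ ℂ, g k = ∑ i, c i * f i := by
    intro k
    obtain ⟨c, hc⟩ := (Ideal.mem_span_range_iff_exists_fun).1 (h k)
    exact ⟨c, hc.symm⟩
  choose α hα using h1
  have hi : Function.Injective (Sum.map Sum.inl id : ι ⊕ σ → (ι ⊕ κ) ⊕ σ) :=
    Function.Injective.sumMap Sum.inl_injective Function.injective_id
  constructor
  · intro h2
    rw [← delE_univ f g α hα]
    exact isB_aut _ _ _ (isB_rename hi _ _ h2)
  · intro h2
    rw [← delE_univ f g α hα] at h2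
    have h3 := isB_aut (delE α).symm _ _ h2
    rw [AlgEquiv.symm_apply_apply] at h3
    exact isB_of_rename hi _ _ h3

omit [Fintype σ] [DecidableEq ι] [DecidableEq κ] in
theorem univ_swap (f : ι → MvPolynomial σ ℂ) (g : κ → MvPolynomial σ ℂ) :
    rename (Sum.map Sum.swap id) (univ (Sum.elim f g)) = univ (Sum.elim g f) := by
  unfold univ
  rw [map_sum, Fintype.sum_sum_type, Fintype.sum_sum_type, add_comm]
  congr 1 <;>
  · refine Finset.sum_congr rfl fun i _ => ?_
    rw [map_mul, rename_X, rename_rename]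
    rfl

/-- **Change of generators.** -/
theorem isB_gens (f : ι → MvPolynomial σ ℂ) (g : κ → MvPolynomial σ ℂ)
    (h : Ideal.span (Set.range f) = Ideal.span (Set.range g)) (B : Polynomial ℂ)
    (hB : IsBFunction (univ f) B) : IsBFunction (univ g) B := by
  have h1 := (isB_pair f g (fun k => by
    rw [h]
    exact Ideal.subset_span ⟨k, rfl⟩) B).1 hB
  refine (isB_pair g f (fun i => by
    rw [← h]
    exact Ideal.subset_span ⟨i, rfl⟩) B).2 ?_
  rw [← univ_swap f g]
  exact isB_rename (Function.Injective.sumMap Sum.swap_leftInverse.injective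
    Function.injective_id) _ _ h1

/-- **The converse of Mustata's theorem with the factor `s + 1`.** -/
theorem fe_of_univ [DecidableEq σ] (f : ι → MvPolynomial σ ℂ) (hf : ∃ j, f j ≠ 0)
    (b : Polynomial ℂ) (hb : IsBFunction (univ f) ((Polynomial.X + 1) * b)) :
    IsFunctionalEq f b := by
  classical
  let a : Unit → ℕ := fun _ => 1
  let F : (t : Unit) → ι → MvPolynomial σ ℂ := fun _ => f
  let ε : ι ⊕ σ → (Σ _ : Unit, ι) ⊕ σ := Sum.map (fun j => ⟨(), j⟩) id
  have hε : Function.Injective ε := Function.Injective.sumMap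
    (fun j k h => by simpa using h) Function.injective_id
  have h1 : Pool.Agent.R852.PP.form a (1 : MvPolynomial σ ℂ) F = rename ε (univ f) := by
    unfold Pool.Agent.R852.PP.form Pool.Agent.TH192.DT.powProd univ
    rw [map_one, one_mul, Fintype.prod_unique, pow_one, Pool.Agent.TH192.DT.blockForm, map_sum]
    refine Finset.sum_congr rfl fun j _ => ?_
    rw [map_mul, rename_X, rename_rename]
    rfl
  obtain ⟨b', hb', h2⟩ := Pool.Agent.R852.PP.functionalEq_strong a 1 F one_ne_zero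
    (fun _ => hf) () one_ne_zero _ (by
      rw [h1]
      exact isB_rename hε _ _ hb)
  have h3 : Pool.Agent.R852.PP.phiA a = Polynomial.X + 1 := by
    unfold Pool.Agent.R852.PP.phiA
    simp [a]
  rw [h3] at hb'
  have h4 : (Polynomial.X + 1 : Polynomial ℂ) ≠ 0 := by
    intro h
    have := congrArg (Polynomial.eval 0) h
    simp at this
  rw [← mul_left_cancel₀ h4 hb'] at h2
  let uq : Unique (Σ t : Unit, Fin (a t)) := ⟨⟨⟨(), (0 : Fin 1)⟩⟩, by
    rintro ⟨t, x⟩
    have hx : x = (0 : Fin 1) := Subsingleton.elim (α := Fin 1) _ _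
    subst hx
    rfl⟩
  refine Pool.Agent.W574.RO.functionalEq_equiv (Equiv.refl σ)
    (Equiv.funUnique (Σ t : Unit, Fin (a t)) ι).symm f _ (fun j => ?_) b h2
  unfold Pool.Agent.R852.PP.gen Pool.Agent.TH192.DT.prodFam
  rw [one_mul, Fintype.prod_unique]
  exact (rename_id_apply _).symm

end

end Pool.Agent.Run7.h768.QI
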