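import Pool.Agent.N101.CB.StmI

/-!
# The graph step `I ↦ (I, w - u)`
-/

set_option autoImplicit false

namespace Pool.Agent.Run7.h768.QI

open MvPolynomial

section
variable {K : Type} [Field K] {n r : ℕ}

/-- the generators `f_j` and `w - u`, in the variables `x, w` -/
noncomputable def gs (f : Fin r → MvPolynomial (Fin n) K) (u : MvPolynomial (Fin n) K) :
    Fin (r + 1) → MvPolynomial (Fin (n + 1)) K :=
  Fin.snoc (fun j => rename Fin.castSucc (f j)) (X (Fin.last n) - rename Fin.castSucc u)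

theorem gs_castSucc (f : Fin r → MvPolynomial (Fin n) K) (u : MvPolynomial (Fin n) K)
    (j : Fin r) : gs f u (Fin.castSucc j) = rename Fin.castSucc (f j) := by
  unfold gs
  rw [Fin.snoc_castSucc]

theorem gs_last (f : Fin r → MvPolynomial (Fin n) K) (u : MvPolynomial (Fin n) K) :
    gs f u (Fin.last r) = X (Fin.last n) - rename Fin.castSucc u := by
  unfold gs
  rw [Fin.snoc_last]

theorem gs_ne (f : Fin r → MvPolynomial (Fin n) K) (u : MvPolynomial (Fin n) K) :
    ∃ j, gs f u j ≠ 0 := by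
  refine ⟨Fin.last r, fun h => ?_⟩
  rw [gs_last] at h
  have h1 := congrArg (aeval (Fin.snoc (fun _ : Fin n => (0 : K))
    (1 + aeval (fun _ => (0 : K)) u) : Fin (n + 1) → K)) h
  rw [map_sub, map_zero, aeval_X, Fin.snoc_last, aeval_rename] at h1
  have h2 : (Fin.snoc (fun _ : Fin n => (0 : K)) (1 + aeval (fun _ => (0 : K)) u) :
      Fin (n + 1) → K) ∘ Fin.castSucc = fun _ => (0 : K) := by
    funext i
    exact Fin.snoc_castSucc (α := fun _ => K) _ _ _
  rw [h2] at h1
  simp at h1

theorem gs_span (f : Fin r → MvPolynomial (Fin n) K) (u : MvPolynomial (Fin n) K) :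
    Ideal.span (Set.range (gs f u)) =
      (Ideal.span (Set.range f)).map (rename Fin.castSucc : MvPolynomial (Fin n) K →ₐ[K] _) ⊔
        Ideal.span {X (Fin.last n) - rename Fin.castSucc u} := by
  rw [Ideal.map_span, ← Ideal.span_union]
  congr 1
  ext p
  constructor
  · rintro ⟨j, rfl⟩
    refine Fin.lastCases ?_ (fun j => ?_) j
    · rw [gs_last]
      exact Or.inr rfl
    · rw [gs_castSucc]
      exact Or.inl ⟨f j, ⟨j, rfl⟩, rfl⟩
  · rintro (⟨_, ⟨j, rfl⟩, rfl⟩ | rfl)
    · exact ⟨Fin.castSucc j, gs_castSucc f u j⟩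
    · exact ⟨Fin.last r, gs_last f u⟩

theorem gs_const (f : Fin r → MvPolynomial (Fin n) K) (u : MvPolynomial (Fin n) K)
    (hf : ∀ j, constantCoeff (f j) = 0) (hu : constantCoeff u = 0) (j : Fin (r + 1)) :
    constantCoeff (gs f u j) = 0 := by
  refine Fin.lastCases ?_ (fun j => ?_) j
  · rw [gs_last, map_sub, constantCoeff_X, constantCoeff_rename, hu, sub_zero]
  · rw [gs_castSucc, constantCoeff_rename, hf]

end

end Pool.Agent.Run7.h768.QI
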