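import Pool.Agent.Run7.h768.QI.BF2
import Pool.Agent.Run7.h768.QI.Def

/-!
# Functional equations of ideals: the graph step `I ↦ (I, w - u)`
-/

set_option autoImplicit false
set_option linter.unusedSectionVars false

namespace Pool.Agent.Run7.h768.QI

open MvPolynomial Pool.Agent.W574.SM Pool.Agent.W574.HS
open Pool.Agent.H628R4.TP (IsBFunction weylS)
open Pool.Agent.N101.CB (stp bg)

/-- **The functional equations depend only on the ideal.** -/
theorem fe_gens {σ ι κ : Type} [Fintype σ] [DecidableEq σ] [Fintype ι] [Fintype κ]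
    (f : ι → MvPolynomial σ ℂ) (g : κ → MvPolynomial σ ℂ)
    (h : Ideal.span (Set.range f) = Ideal.span (Set.range g)) (hf : ∃ j, f j ≠ 0)
    (b : Polynomial ℂ) (hb : IsFunctionalEq f b) : IsFunctionalEq g b := by
  classical
  refine fe_of_univ g ?_ b (isB_gens f g h _ (Pool.Agent.W366.SI.taskI1 f b hb))
  by_contra hg
  push Not at hg
  obtain ⟨j, hj⟩ := hf
  apply hj
  have h1 : f j ∈ Ideal.span (Set.range g) := by
    rw [← h]
    exact Ideal.subset_span ⟨j, rfl⟩
  have h2 : Ideal.span (Set.range g) = ⊥ := by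
    rw [Ideal.span_eq_bot]
    rintro _ ⟨k, rfl⟩
    exact hg k
  rw [h2] at h1
  exact h1

theorem univ_deg {n r : ℕ} (f : Fin r → MvPolynomial (Fin n) ℂ) (hf : ∃ j, f j ≠ 0) :
    (rename finSumFinEquiv (univ f) : MvPolynomial (Fin (r + n)) ℂ).totalDegree ≠ 0 := by
  classical
  intro h
  rw [totalDegree_eq_zero_iff_eq_C] at h
  set c := coeff 0 (rename finSumFinEquiv (univ f) : MvPolynomial (Fin (r + n)) ℂ)
  have h0 : univ f = C c := by
    have h1 := congrArg (rename finSumFinEquiv.symm) h
    rw [rename_rename, rename_C, Equiv.symm_comp_self, rename_id_apply] at h1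
    exact h1
  obtain ⟨j, hj⟩ := hf
  have key : ∀ a : Fin r → MvPolynomial (Fin n) ℂ, ∑ i, a i * f i = C c := by
    intro a
    have h2 := congrArg (aeval (Sum.elim a X)) h0
    unfold univ at h2
    rw [map_sum, ← algebraMap_eq, AlgHom.commutes, algebraMap_eq] at h2
    rw [← h2]
    refine Finset.sum_congr rfl fun i _ => ?_
    rw [map_mul, aeval_X, aeval_rename, Sum.elim_inl, Sum.elim_comp_inr, aeval_X_left,
      AlgHom.id_apply]
  have h3 := key 0
  have h4 := key (Pi.single j 1)
  rw [← h3] at h4
  apply hj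
  rw [Finset.sum_eq_single j] at h4
  · simpa using h4
  · intro i _ hi
    rw [Pi.single_eq_of_ne hi, zero_mul]
  · intro h
    exact absurd (Finset.mem_univ j) h

section
variable {n r : ℕ}

/-- the renaming of the variables -/
def rho (n r : ℕ) : Fin (r + n + 2) → Fin (r + 1) ⊕ Fin (n + 1) :=
  Fin.append (fun k => Sum.map Fin.castSucc Fin.castSucc (finSumFinEquiv.symm k))
    ![Sum.inl (Fin.last r), Sum.inr (Fin.last n)]

theorem rho_x (k : Fin (r + n)) : rho n r (Fin.castAdd 2 k) =
    Sum.map Fin.castSucc Fin.castSucc (finSumFinEquiv.symm k) := Fin.append_left _ _ _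

theorem rho_t : rho n r (Fin.natAdd (r + n) 0) = Sum.inl (Fin.last r) :=
  Fin.append_right _ _ _

theorem rho_w : rho n r (Fin.natAdd (r + n) 1) = Sum.inr (Fin.last n) :=
  Fin.append_right _ _ _

theorem rho_inj : Function.Injective (rho n r) := by
  have h1 : ∀ k : Fin (r + n), rho n r (Fin.castAdd 2 k) ≠ Sum.inl (Fin.last r) := by
    intro k
    rw [rho_x]
    rcases finSumFinEquiv.symm k with i | i
    · intro h
      exact Fin.castSucc_ne_last i (Sum.inl_injective h)
    · exact Sum.inr_ne_inl
  have h2 : ∀ k : Fin (r + n), rho n r (Fin.castAdd 2 k) ≠ Sum.inr (Fin.last n) := by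
    intro k
    rw [rho_x]
    rcases finSumFinEquiv.symm k with i | i
    · exact Sum.inl_ne_inr
    · intro h
      exact Fin.castSucc_ne_last i (Sum.inr_injective h)
  have hi : Function.Injective (Sum.map (Fin.castSucc : Fin r → _) (Fin.castSucc : Fin n → _)) :=
    Function.Injective.sumMap (Fin.castSucc_injective _) (Fin.castSucc_injective _)
  intro a b
  refine Fin.addCases (fun a => ?_) (fun a => ?_) a <;>
  refine Fin.addCases (fun b => ?_) (fun b => ?_) b
  · intro h
    rw [rho_x, rho_x] at h
    rw [finSumFinEquiv.symm.injective (hi h)]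
  · fin_cases b
    · intro h
      exact absurd (h.trans rho_t) (h1 a)
    · intro h
      exact absurd (h.trans rho_w) (h2 a)
  · fin_cases a
    · intro h
      exact absurd (h.symm.trans rho_t) (h1 b)
    · intro h
      exact absurd (h.symm.trans rho_w) (h2 b)
  · fin_cases a <;> fin_cases b
    · intro _
      rfl
    · intro h
      exact absurd (rho_t.symm.trans (h.trans rho_w)) Sum.inl_ne_inr
    · intro h
      exact absurd (rho_w.symm.trans (h.trans rho_t)) Sum.inr_ne_inl
    · intro _
      rfl

theorem rho_stp (f : Fin r → MvPolynomial (Fin n) ℂ) (u : MvPolynomial (Fin n) ℂ) :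
    rename (rho n r) (stp (rename finSumFinEquiv (univ f))
      (rename (finSumFinEquiv ∘ Sum.inr) u) 0) = univ (gs f u) := by
  have hx : ∀ p : MvPolynomial (Fin r ⊕ Fin n) ℂ, rename (rho n r) (rename (Fin.castAdd 2)
      (rename finSumFinEquiv p)) = rename (Sum.map Fin.castSucc Fin.castSucc) p := by
    intro p
    rw [rename_rename, rename_rename]
    congr 1
    congr 1
    funext k
    rw [Function.comp_apply, Function.comp_apply, rho_x, Equiv.symm_apply_apply]
  unfold stp
  rw [map_add, map_mul, hx, map_zero, add_zero, rename_X, rho_t, map_sub, rename_X, rho_w,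
    ← rename_rename, hx, rename_rename]
  unfold univ
  rw [Fin.sum_univ_castSucc, map_sum, gs_last, map_sub, rename_X, rename_rename]
  congr 1
  refine Finset.sum_congr rfl fun j _ => ?_
  rw [map_mul, rename_X, rename_rename, gs_castSucc, rename_rename]
  rfl

/-- **The functional equation of `(I, w - u)`.** -/
theorem fe_step (f : Fin r → MvPolynomial (Fin n) ℂ) (hf : ∃ j, f j ≠ 0)
    (u : MvPolynomial (Fin n) ℂ) (b : Polynomial ℂ) (hb : IsFunctionalEq f b) :
    IsFunctionalEq (gs f u) (b.comp (Polynomial.X + 1)) := by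
  classical
  have h1 := isB_rename (finSumFinEquiv (m := r) (n := n)).injective _ _
    (Pool.Agent.W366.SI.taskI1 f b hb)
  have h2 := (bg _ (rename (finSumFinEquiv ∘ Sum.inr) u) 0 (univ_deg f hf) _ h1).2 b rfl
  have h3 := isB_rename rho_inj _ _ h2
  rw [rho_stp] at h3
  exact fe_of_univ _ (gs_ne f u) _ h3

end

end Pool.Agent.Run7.h768.QI
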