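import Pool.Agent.Run7.h768.QI.Rel

/-!
# The descent of the conjectures
-/

set_option autoImplicit false

namespace Pool.Agent.Run7.h768.QI

open MvPolynomial Pool.Agent.W428.MOT Pool.Agent.N101.CB
open Pool.Agent.W574.SM (IsFunctionalEq)

/-- `R` is a topological zeta function of the ideal `I` generated by the `f_j`, for the ring
homomorphism `χ : 𝓜 → ℂ` with `χ(𝕃) = 1`, for instance the Euler characteristic: the motivic zeta
function `ztI f univ = ∑_N [X_N] 𝕃 ^ (-n N) T ^ N`, `X_N` the variety of the `N`-jets along which the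
order of `I` is `N`, is a polynomial `Q` in the
`F_(N, ν) = (𝕃 - 1) 𝕃 ^ (-ν) T ^ N / (1 - 𝕃 ^ (-ν) T ^ N)`, `N, ν ≥ 1`, with coefficients in `𝓜`, and
`R = (χ Q)(1 / (N s + ν))`. By the formula with a log resolution, `Q = ∑_S [E_S°] ∏_{j ∈ S} F_(a_j, k_j + 1)`,
the topological zeta function `Z_I(s)` has this property. -/
def IsTopZetaI (χ : MK ℂ →+* ℂ) {n r : ℕ} (f : Fin r → MvPolynomial (Fin n) ℂ)
    (R : RatFunc ℂ) : Prop :=
  IsTop χ (ztI f Set.univ) R

/-- Q1 for the ideal generated by the `f_j`: every pole of a topological zeta function is a root of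
every polynomial `b` with a functional equation, in particular of the Bernstein-Sato polynomial. -/
def Q1For (χ : MK ℂ →+* ℂ) {n r : ℕ} (f : Fin r → MvPolynomial (Fin n) ℂ) : Prop :=
  ∀ R : RatFunc ℂ, IsTopZetaI χ f R → ∀ s : ℂ, ¬ Reg R s →
    ∀ b : Polynomial ℂ, IsFunctionalEq f b → b.eval s = 0

/-- Q2 for the ideal generated by the `f_j`: the product of a topological zeta function and of a
polynomial `b` with a functional equation, in particular of the Bernstein-Sato polynomial, is a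
polynomial. -/
def Q2For (χ : MK ℂ →+* ℂ) {n r : ℕ} (f : Fin r → MvPolynomial (Fin n) ℂ) : Prop :=
  ∀ R : RatFunc ℂ, IsTopZetaI χ f R → ∀ b : Polynomial ℂ, IsFunctionalEq f b →
    ∃ p : Polynomial ℂ, algebraMap (Polynomial ℂ) (RatFunc ℂ) b * R =
      algebraMap (Polynomial ℂ) (RatFunc ℂ) p

section
variable {χ : MK ℂ →+* ℂ} {n r m s : ℕ} {f : Fin r → MvPolynomial (Fin n) ℂ}
  {F : Fin s → MvPolynomial (Fin m) ℂ} {κ : ℕ}

theorem q1_of (hχ : χ ((Lu ℂ : (MK ℂ)ˣ) : MK ℂ) = 1) (hf : ∃ j, f j ≠ 0) (h : RlI f F κ)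
    (hF : Q1For χ F) : Q1For χ f := by
  intro R hR s hs b hb
  obtain ⟨R', h5, h6⟩ := h.top χ hχ R hR
  have h1 := hF R' h5 _ (h6.pole (ne_of_pole hR hs) hs) _ (h.b hf b hb)
  rw [Polynomial.eval_comp] at h1
  simpa using h1

theorem q2_of (hχ : χ ((Lu ℂ : (MK ℂ)ˣ) : MK ℂ) = 1) (hf : ∃ j, f j ≠ 0) (h : RlI f F κ)
    (hF : Q2For χ F) : Q2For χ f := by
  intro R hR b hb
  obtain ⟨R', h5, h6⟩ := h.top χ hχ R hR
  obtain ⟨p, hp⟩ := hF R' h5 _ (h.b hf b hb)
  set p' := p.comp (Polynomial.X + Polynomial.C (-(κ : ℂ))) with hp'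
  set S := shR (-(κ : ℂ)) R' with hS
  have e1 := congrArg (shR (-(κ : ℂ))) hp
  rw [map_mul, shR_poly, shR_poly, Polynomial.comp_assoc, ← hp', ← hS] at e1
  have e2 : (Polynomial.X + Polynomial.C (κ : ℂ)).comp (Polynomial.X + Polynomial.C (-(κ : ℂ))) =
      (Polynomial.X : Polynomial ℂ) := by
    rw [Polynomial.add_comp, Polynomial.X_comp, Polynomial.C_comp, map_neg]
    ring
  rw [e2, Polynomial.comp_X] at e1
  unfold TFI at h6
  have e3 := congrArg (shR (-(κ : ℂ))) h6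
  rw [map_mul, map_mul, map_sub, map_sub, map_add, map_one, shR_X, shR_shR, map_natCast,
    ← hS, map_neg, map_natCast] at e3
  set B := algebraMap (Polynomial ℂ) (RatFunc ℂ) b with hB
  set P := algebraMap (Polynomial ℂ) (RatFunc ℂ) p' with hP
  have e4 : (RatFunc.X - (κ : RatFunc ℂ)) * (B * R) = RatFunc.X * P - (κ : RatFunc ℂ) * B := by
    linear_combination RatFunc.X * e1 - B * e3
  have e5 : algebraMap (Polynomial ℂ) (RatFunc ℂ) (Polynomial.X - Polynomial.C (κ : ℂ)) * (B * R) =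
      algebraMap (Polynomial ℂ) (RatFunc ℂ) (Polynomial.X * p' - Polynomial.C (κ : ℂ) * b) := by
    rw [map_sub, map_sub, map_mul, map_mul, RatFunc.algebraMap_X, ← hB, ← hP]
    have h7 : algebraMap (Polynomial ℂ) (RatFunc ℂ) (Polynomial.C (κ : ℂ)) = (κ : RatFunc ℂ) := by
      rw [map_natCast, map_natCast]
    rw [h7]
    exact e4
  -- `R` is regular at `κ`
  have h8 : Reg R (κ : ℂ) := by
    by_contra hcon
    obtain ⟨q, hq, h9⟩ := ne_of_pole hR hcon
    have h10 : (κ : ℚ) = q := by exact_mod_cast h9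
    have h11 : (0 : ℚ) ≤ κ := Nat.cast_nonneg κ
    linarith
  obtain ⟨p1, q1, h9, h10⟩ := h8
  have h11 : (Polynomial.X - Polynomial.C (κ : ℂ)) * (b * p1) =
      q1 * (Polynomial.X * p' - Polynomial.C (κ : ℂ) * b) := by
    apply RatFunc.algebraMap_injective ℂ
    rw [map_mul, map_mul, map_mul, ← e5, ← h10]
    ring
  have h12 : (Polynomial.X * p' - Polynomial.C (κ : ℂ) * b).eval (κ : ℂ) = 0 := by
    have h13 := congrArg (Polynomial.eval (κ : ℂ)) h11
    rw [Polynomial.eval_mul, Polynomial.eval_mul (p := q1), Polynomial.eval_sub, Polynomial.eval_X,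
      Polynomial.eval_C, sub_self, zero_mul] at h13
    exact (mul_eq_zero.1 h13.symm).resolve_left h9
  obtain ⟨N, hN⟩ := Polynomial.dvd_iff_isRoot.2
    (show (Polynomial.X * p' - Polynomial.C (κ : ℂ) * b).IsRoot (κ : ℂ) from h12)
  refine ⟨N, ?_⟩
  have h14 : algebraMap (Polynomial ℂ) (RatFunc ℂ) (Polynomial.X - Polynomial.C (κ : ℂ)) ≠ 0 :=
    ne0 (s := (κ : ℂ) + 1) (by simp)
  apply mul_left_cancel₀ h14
  rw [e5, hN, map_mul]

end

end Pool.Agent.Run7.h768.QI
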