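import Pool.Agent.Run7.h768.QI.Def
import Pool.Agent.N101.CB.Main
import Pool.Agent.Y812.MS.Two

/-!
# Jets and motivic zeta functions of ideals: the graph step `I ↦ (I, w - u)`
-/

set_option autoImplicit false

namespace Pool.Agent.Run7.h768.QI

open MvPolynomial Pool.Agent.W428.MOT Pool.Agent.W375.MT Pool.Agent.N101.CB
open Pool.Agent.Y812.MS (Fl card_Fl rsl exl)
open Pool.Agent.Y229.MS (rescale_X' rescale_C')

section
variable {K : Type} [Field K] {n r : ℕ}

theorem constr_TlI (f : Fin r → MvPolynomial (Fin n) K) {W : Set (Pt K (Fin n))}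
    (hW : Constr W) (i N : ℕ) : Constr (TlI f W i N) := by
  unfold TlI
  refine Constr.and (hW.preimage _ fun i => IsPF.coord _) ?_
  have h := Constr.ballFinset (K := K) (ι := Fin n × Fin (N + 1)) (Finset.univ : Finset (Fin r))
    (p := fun l z => ∀ j < i, PowerSeries.coeff j (aeval (arc z) (f l)) = 0) fun l _ =>
      Constr.allLt _ fun j _ =>
        Constr.eqz (IsPA.aeval (fun i z => arc z i) (fun i => isPA_arc i) (f l) j)
  simpa using h

theorem tlI_free (f : Fin r → MvPolynomial (Fin n) K) (W : Set (Pt K (Fin n))) (i N : ℕ)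
    (hi : i ≤ N + 1) (z w : Pt K (Fin n × Fin (N + 1 + 1))) (h : ∀ p, p ∉ Fl n N → w p = z p)
    (hz : z ∈ TlI f W i (N + 1)) : w ∈ TlI f W i (N + 1) := by
  obtain ⟨h1, h2⟩ := hz
  refine ⟨?_, fun l j hj => ?_⟩
  · have : (fun i => w (i, 0)) = fun i => z (i, 0) := by
      funext i
      exact h (i, 0) (by simp [Fl])
    rw [this]
    exact h1
  · have h4 : ∀ j ≤ N, PowerSeries.coeff j (aeval (arc w) (f l)) =
        PowerSeries.coeff j (aeval (arc z) (f l)) := by
      refine coeff_aeval_congr (f l) N (arc w) (arc z) ?_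
      intro i k hk
      rw [coeff_arc _ _ _ (by omega), coeff_arc _ _ _ (by omega)]
      exact h _ (by simp only [Fl, Finset.mem_filter, Finset.mem_univ, true_and]; omega)
    rw [h4 j (by omega)]
    exact h2 l j hj

theorem tlI_eq {R : Type} [CommRing R] (M : Meas K R) (f : Fin r → MvPolynomial (Fin n) K)
    {W : Set (Pt K (Fin n))} (hW : Constr W) (i N : ℕ) (hi : i ≤ N + 1) :
    M.χ _ (TlI f W i (N + 1) ∩ {z | ∀ p ∈ Fl n N, z p = 0}) = M.χ _ (TlI f W i N) := by
  refine M.iso _ _ ((constr_TlI f hW i (N + 1)).inter (Constr.ballFinset _ fun p _ =>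
    Constr.eqz (IsPF.coord _))) (constr_TlI f hW i N) rsl exl
    (regularOn_poly (fun p => IsPF.coord _) _) (regularOn_poly (fun p => ?_) _) ?_ ?_ ?_ ?_
  · unfold exl
    by_cases h : (p.2 : ℕ) < N + 1
    · simp only [dif_pos h]
      exact IsPF.coord _
    · simp only [dif_neg h]
      exact IsPF.zero
  · rintro z ⟨⟨h1, h2⟩, h3⟩
    refine ⟨h1, fun l j hj => ?_⟩
    have h4 : ∀ j ≤ N, PowerSeries.coeff j (aeval (arc (rsl z)) (f l)) =
        PowerSeries.coeff j (aeval (arc z) (f l)) := by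
      refine coeff_aeval_congr (f l) N (arc (rsl z)) (arc z) ?_
      intro i k hk
      rw [coeff_arc _ _ _ (by omega), coeff_arc _ _ _ (by omega)]
      rfl
    rw [h4 j (by omega)]
    exact h2 l j hj
  · rintro z ⟨h1, h2⟩
    refine ⟨⟨h1, fun l j hj => ?_⟩, ?_⟩
    · have h4 : ∀ j ≤ N, PowerSeries.coeff j (aeval (arc (exl z)) (f l)) =
          PowerSeries.coeff j (aeval (arc z) (f l)) := by
        refine coeff_aeval_congr (f l) N (arc (exl z)) (arc z) ?_
        intro i k hk
        rw [coeff_arc _ _ _ (by omega), coeff_arc _ _ _ (by omega)]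
        simp only [exl]
        rw [dif_pos (by omega)]
      rw [h4 j (by omega)]
      exact h2 l j hj
    · intro p hp
      simp only [Fl, Finset.mem_filter, Finset.mem_univ, true_and] at hp
      simp only [exl]
      rw [dif_neg (by omega)]
  · rintro z ⟨-, h3⟩
    funext p
    simp only [exl, rsl]
    split_ifs with h
    · rfl
    · exact (h3 p (by
        have := p.2.2
        simp only [Fl, Finset.mem_filter, Finset.mem_univ, true_and]; omega)).symm
  · rintro z -
    funext p
    simp only [exl, rsl]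
    rw [dif_pos p.2.2]

/-- one more coefficient -/
theorem twoI {R : Type} [CommRing R] (M : Meas K R) (f : Fin r → MvPolynomial (Fin n) K)
    {W : Set (Pt K (Fin n))} (hW : Constr W) (i N : ℕ) (hi : i ≤ N + 1) :
    M.χ _ (TlI f W i (N + 1)) = M.χ _ (TlI f W i N) * M.L ^ n := by
  classical
  have e1 := Pool.Agent.W417.MT.Free.free_one M (Fl n N) (fun _ => 0) _
    (constr_TlI f hW i (N + 1)) (fun z w h hz => tlI_free f W i N hi z w h hz)
  simp only [map_zero] at e1
  rw [card_Fl, tlI_eq M f hW i N hi] at e1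
  exact e1

theorem jetI_eq (f : Fin r → MvPolynomial (Fin n) K) (W : Set (Pt K (Fin n))) (N : ℕ) :
    JetI f W N = TlI f W N N ∩ (TlI f W (N + 1) N)ᶜ := by
  ext z
  constructor
  · rintro ⟨h1, h2, l, hl⟩
    exact ⟨⟨h1, h2⟩, fun h => hl (h.2 l N (Nat.lt_succ_self N))⟩
  · rintro ⟨⟨h1, h2⟩, h3⟩
    refine ⟨h1, h2, ?_⟩
    by_contra h4
    push Not at h4
    refine h3 ⟨h1, fun l j hj => ?_⟩
    rcases Nat.lt_succ_iff_lt_or_eq.1 hj with h5 | rfl
    · exact h2 l j h5
    · exact h4 l

theorem constr_JetI (f : Fin r → MvPolynomial (Fin n) K) {W : Set (Pt K (Fin n))}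
    (hW : Constr W) (N : ℕ) : Constr (JetI f W N) := by
  rw [jetI_eq]
  exact (constr_TlI f hW N N).inter (constr_TlI f hW (N + 1) N).compl

/-- the jets with `ord ≥ N` -/
theorem tlI_split {R : Type} [CommRing R] (M : Meas K R) (f : Fin r → MvPolynomial (Fin n) K)
    {W : Set (Pt K (Fin n))} (hW : Constr W) (N : ℕ) :
    M.χ _ (TlI f W N N) = M.χ _ (JetI f W N) + M.χ _ (TlI f W (N + 1) N) := by
  have h1 : Disjoint (JetI f W N) (TlI f W (N + 1) N) := by
    rw [Set.disjoint_left]
    rintro z ⟨-, -, l, hl⟩ h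
    exact hl (h.2 l N (Nat.lt_succ_self N))
  have h2 : TlI f W N N = JetI f W N ∪ TlI f W (N + 1) N := by
    rw [jetI_eq]
    ext z
    constructor
    · intro h
      by_cases h3 : z ∈ TlI f W (N + 1) N
      · exact Or.inr h3
      · exact Or.inl ⟨h, h3⟩
    · rintro (h | h)
      · exact h.1
      · exact ⟨h.1, fun l j hj => h.2 l j (Nat.lt_succ_of_lt hj)⟩
  rw [h2]
  exact M.add _ _ (constr_JetI f hW N) (constr_TlI f hW (N + 1) N) h1

/-- the jets of level zero -/
theorem tlI_zero {R : Type} [CommRing R] (M : Meas K R) (f : Fin r → MvPolynomial (Fin n) K)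
    {W : Set (Pt K (Fin n))} (hW : Constr W) : M.χ _ (TlI f W 0 0) = M.χ (Fin n) W := by
  refine M.iso _ _ (constr_TlI f hW 0 0) hW (fun z i => z (i, 0))
    (fun w p => w p.1) (regularOn_poly (fun i => IsPF.coord _) _)
    (regularOn_poly (fun p => IsPF.coord _) _) ?_ ?_ ?_ ?_
  · rintro z ⟨h, -⟩
    exact h
  · intro w hw
    exact ⟨hw, fun l j hj => absurd hj (Nat.not_lt_zero j)⟩
  · intro z _
    funext p
    obtain ⟨i, j, hj⟩ := p
    have hj0 : j = 0 := by omega
    subst hj0
    rfl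
  · intro w _
    rfl

/-! ### the graph step -/

/-- the first `n` coordinates of a jet -/
def prj {N : ℕ} (z : Pt K (Fin (n + 1) × Fin (N + 1))) : Pt K (Fin n × Fin (N + 1)) :=
  fun p => z (Fin.castSucc p.1, p.2)

/-- the lift of a jet to the graph of `u` modulo `t ^ N` -/
noncomputable def grl (u : MvPolynomial (Fin n) K) {N : ℕ} (z : Pt K (Fin n × Fin (N + 1))) :
    Pt K (Fin (n + 1) × Fin (N + 1)) :=
  fun p => Fin.lastCases (motive := fun _ => AlgebraicClosure K)
    (if (p.2 : ℕ) < N then PowerSeries.coeff (p.2 : ℕ) (aeval (arc z) u) else 0)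
    (fun i => z (i, p.2)) p.1

theorem grl_castSucc (u : MvPolynomial (Fin n) K) {N : ℕ} (z : Pt K (Fin n × Fin (N + 1)))
    (i : Fin n) (j : Fin (N + 1)) : grl u z (Fin.castSucc i, j) = z (i, j) := by
  unfold grl
  rw [Fin.lastCases_castSucc]

theorem grl_last (u : MvPolynomial (Fin n) K) {N : ℕ} (z : Pt K (Fin n × Fin (N + 1)))
    (j : Fin (N + 1)) : grl u z (Fin.last n, j) =
      if (j : ℕ) < N then PowerSeries.coeff (j : ℕ) (aeval (arc z) u) else 0 := by
  unfold grl
  rw [Fin.lastCases_last]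

theorem prj_grl (u : MvPolynomial (Fin n) K) {N : ℕ} (z : Pt K (Fin n × Fin (N + 1))) :
    prj (grl u z) = z := by
  funext p
  exact grl_castSucc u z p.1 p.2

theorem aeval_prj {N : ℕ} (z : Pt K (Fin (n + 1) × Fin (N + 1))) (p : MvPolynomial (Fin n) K) :
    aeval (arc z) (rename Fin.castSucc p) = aeval (arc (prj z)) p := by
  rw [aeval_rename]
  rfl

/-- membership for the graph step -/
theorem mem_gs (f : Fin r → MvPolynomial (Fin n) K) (u : MvPolynomial (Fin n) K)
    (W : Set (Pt K (Fin n))) {i N : ℕ} (hi : i ≤ N + 1)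
    (z : Pt K (Fin (n + 1) × Fin (N + 1))) :
    z ∈ TlI (gs f u) (Wx W) i N ↔ prj z ∈ TlI f W i N ∧ ∀ j : Fin (N + 1), (j : ℕ) < i →
      z (Fin.last n, j) = PowerSeries.coeff (j : ℕ) (aeval (arc (prj z)) u) := by
  constructor
  · rintro ⟨h1, h2⟩
    refine ⟨⟨h1, fun l j hj => ?_⟩, fun j hj => ?_⟩
    · have h3 := h2 (Fin.castSucc l) j hj
      rwa [gs_castSucc, aeval_prj] at h3
    · have h3 := h2 (Fin.last r) j hj
      rw [gs_last, map_sub, aeval_X, aeval_prj, map_sub, coeff_arc _ _ _ j.2,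
        sub_eq_zero] at h3
      exact h3
  · rintro ⟨⟨h1, h2⟩, h3⟩
    refine ⟨h1, fun l j hj => ?_⟩
    refine Fin.lastCases ?_ (fun l => ?_) l
    · have hj' : j < N + 1 := lt_of_lt_of_le hj hi
      rw [gs_last, map_sub, aeval_X, aeval_prj, map_sub, coeff_arc _ _ _ hj', sub_eq_zero]
      exact h3 ⟨j, hj'⟩ hj
    · rw [gs_castSucc, aeval_prj]
      exact h2 l j hj

theorem constr_Wx {W : Set (Pt K (Fin n))} (hW : Constr W) :
    Constr (Wx W : Set (Pt K (Fin (n + 1)))) :=
  hW.preimage _ fun i => IsPF.coord _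

/-- **The jets of `(I, w - u)`.** -/
theorem tlI_gs {R : Type} [CommRing R] (M : Meas K R) (f : Fin r → MvPolynomial (Fin n) K)
    (u : MvPolynomial (Fin n) K) {W : Set (Pt K (Fin n))} (hW : Constr W) (N : ℕ) :
    M.χ _ (TlI (gs f u) (Wx W) N N) = M.χ _ (TlI f W N N) * M.L := by
  classical
  have hc := constr_TlI (gs f u) (constr_Wx hW) N N
  have e1 := Pool.Agent.W417.MT.Free.free_one M {((Fin.last n, Fin.last N) :
    Fin (n + 1) × Fin (N + 1))} (fun _ => 0) _ hc (fun z w h hz => by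
      have hp : prj w = prj z := by
        funext p
        refine h _ ?_
        rw [Finset.mem_singleton]
        intro h4
        exact Fin.castSucc_ne_last _ (Prod.mk.inj h4).1
      rw [mem_gs f u W (Nat.le_succ N)] at hz ⊢
      rw [hp]
      refine ⟨hz.1, fun j hj => ?_⟩
      rw [← hz.2 j hj]
      refine h _ ?_
      rw [Finset.mem_singleton]
      intro h4
      have h5 := (Prod.mk.inj h4).2
      rw [h5, Fin.val_last] at hj
      exact lt_irrefl _ hj)
  simp only [map_zero, Finset.card_singleton, pow_one, Finset.mem_singleton] at e1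
  rw [e1]
  congr 1
  refine M.iso _ _ (hc.inter ?_) (constr_TlI f hW N N) prj (grl u)
    (regularOn_poly (fun p => IsPF.coord _) _) (regularOn_poly (fun p => ?_) _) ?_ ?_ ?_ ?_
  · have h := Constr.eqz (K := K) (IsPF.coord ((Fin.last n, Fin.last N) :
      Fin (n + 1) × Fin (N + 1)))
    simpa using h
  · obtain ⟨i, j⟩ := p
    refine Fin.lastCases ?_ (fun i => ?_) i
    · simp only [grl_last]
      by_cases h : (j : ℕ) < N
      · simp only [if_pos h]
        exact IsPA.aeval (fun i z => arc z i) (fun i => isPA_arc i) u j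
      · simp only [if_neg h]
        exact IsPF.zero
    · simp only [grl_castSucc]
      exact IsPF.coord _
  · rintro z ⟨hz, -⟩
    exact ((mem_gs f u W (Nat.le_succ N) z).1 hz).1
  · intro z hz
    refine ⟨?_, ?_⟩
    · rw [mem_gs f u W (Nat.le_succ N), prj_grl]
      refine ⟨hz, fun j hj => ?_⟩
      rw [grl_last, if_pos hj]
    · simp only [forall_eq, Set.mem_ofPred_eq]
      rw [grl_last, if_neg (by simp)]
  · rintro z ⟨hz, h0⟩
    have h1 := (mem_gs f u W (Nat.le_succ N) z).1 hz
    simp only [forall_eq, Set.mem_ofPred_eq] at h0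
    funext p
    obtain ⟨i, j⟩ := p
    refine Fin.lastCases ?_ (fun i => ?_) i
    · rw [grl_last]
      by_cases h : (j : ℕ) < N
      · rw [if_pos h, h1.2 j h]
      · rw [if_neg h]
        have hj : j = Fin.last N := Fin.ext (by
          have := j.2
          rw [Fin.val_last]
          omega)
        rw [hj, h0]
    · rw [grl_castSucc]
      rfl
  · intro z _
    exact prj_grl u z

/-- the origins in `W`, with `w = 0` -/
def W0 (W : Set (Pt K (Fin n))) : Set (Pt K (Fin (n + 1))) :=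
  {z | (fun i => z (Fin.castSucc i)) ∈ W ∧ z (Fin.last n) = 0}

theorem constr_W0 {W : Set (Pt K (Fin n))} (hW : Constr W) :
    Constr (W0 W : Set (Pt K (Fin (n + 1)))) :=
  Constr.and (hW.preimage _ fun i => IsPF.coord _) (Constr.eqz (IsPF.coord _))

theorem chi_W0 {R : Type} [CommRing R] (M : Meas K R) {W : Set (Pt K (Fin n))}
    (hW : Constr W) : M.χ (Fin (n + 1)) (W0 W) = M.χ (Fin n) W := by
  refine M.iso _ _ (constr_W0 hW) hW (fun z i => z (Fin.castSucc i))
    (fun w => Fin.snoc (α := fun _ => AlgebraicClosure K) w 0)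
    (regularOn_poly (fun i => IsPF.coord _) _) (regularOn_poly (fun p => ?_) _) ?_ ?_ ?_ ?_
  · refine Fin.lastCases ?_ (fun i => ?_) p
    · simp only [Fin.snoc_last]
      exact IsPF.zero
    · simp only [Fin.snoc_castSucc]
      exact IsPF.coord _
  · rintro z ⟨h, -⟩
    exact h
  · intro w hw
    refine ⟨?_, ?_⟩
    · simp only [Fin.snoc_castSucc]
      exact hw
    · simp only [Fin.snoc_last]
  · rintro z ⟨-, h⟩
    funext p
    refine Fin.lastCases ?_ (fun i => ?_) p
    · simp only [Fin.snoc_last]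
      exact h.symm
    · simp only [Fin.snoc_castSucc]
  · intro w _
    funext i
    simp only [Fin.snoc_castSucc]

theorem tlI_W0 (f : Fin r → MvPolynomial (Fin n) K) (u : MvPolynomial (Fin n) K)
    {W : Set (Pt K (Fin n))} (hu : ∀ z ∈ W, aeval z u = 0) {i N : ℕ} (hi : 0 < i) :
    TlI (gs f u) (W0 W) i N = TlI (gs f u) (Wx W) i N := by
  ext z
  constructor
  · rintro ⟨⟨h1, -⟩, h2⟩
    exact ⟨h1, h2⟩
  · rintro ⟨h1, h2⟩
    refine ⟨⟨h1, ?_⟩, h2⟩
    have h3 := h2 (Fin.last r) 0 hi
    rw [gs_last, map_sub, aeval_X, aeval_prj, map_sub, coeff_arc _ _ _ (Nat.succ_pos N),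
      Pool.Agent.Z864.MS.coeff_zero_aeval, sub_eq_zero] at h3
    rw [show (fun i => prj z (i, 0)) = fun i => z (Fin.castSucc i, 0) from rfl, hu _ h1] at h3
    exact h3

end

end Pool.Agent.Run7.h768.QI
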