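import Mathlib

/-!
# Ideals: reduction to affine linear polynomials and parabolas

The reduction principle: a property of ideals of polynomial rings which descends along
`I ↦ (I, w - u)` (one more variable `w`) and which holds for the ideals generated by affine linear
polynomials and by polynomials `y_a - x_a ^ 2` (different variables `x_a`, `y_a`) holds for all ideals.
Every polynomial is computed by a sequence of additions and of squarings.
-/

set_option autoImplicit false

namespace Pool.Agent.Run7.h768.QI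

open MvPolynomial

section
variable {K : Type} [Field K]

/-- affine linear polynomials -/
def Lin {n : ℕ} (p : MvPolynomial (Fin n) K) : Prop := p.totalDegree ≤ 1

theorem Lin.add {n : ℕ} {p q : MvPolynomial (Fin n) K} (hp : Lin p) (hq : Lin q) :
    Lin (p + q) := (totalDegree_add p q).trans (max_le hp hq)

theorem Lin.neg {n : ℕ} {p : MvPolynomial (Fin n) K} (hp : Lin p) : Lin (-p) := by
  unfold Lin
  rw [totalDegree_neg]
  exact hp

theorem Lin.sub {n : ℕ} {p q : MvPolynomial (Fin n) K} (hp : Lin p) (hq : Lin q) :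
    Lin (p - q) := by
  rw [sub_eq_add_neg]
  exact hp.add hq.neg

theorem lin_C {n : ℕ} (c : K) : Lin (C c : MvPolynomial (Fin n) K) := by
  unfold Lin
  rw [totalDegree_C]
  exact Nat.zero_le _

theorem lin_X {n : ℕ} (i : Fin n) : Lin (X i : MvPolynomial (Fin n) K) := by
  unfold Lin
  rw [totalDegree_X]

theorem Lin.Cmul {n : ℕ} (c : K) {p : MvPolynomial (Fin n) K} (h : Lin p) :
    Lin (C c * p) := by
  refine (totalDegree_mul _ _).trans ?_
  rw [totalDegree_C, zero_add]
  exact h

theorem Lin.rename {n m : ℕ} (e : Fin n → Fin m) {p : MvPolynomial (Fin n) K}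
    (h : Lin p) : Lin (rename e p) := (totalDegree_rename_le e p).trans h

/-- There are different variables `x_a`, `y_a` such that every polynomial of the list is affine
linear or one of the polynomials `y_a - x_a ^ 2`. -/
def ParL {n : ℕ} (l : List (MvPolynomial (Fin n) K)) : Prop :=
  ∃ (A : Type) (x y : A → Fin n), Function.Injective (Sum.elim x y) ∧
    ∀ p ∈ l, Lin p ∨ ∃ a, p = X (y a) - X (x a) ^ 2

theorem ParL.cons {n : ℕ} {l : List (MvPolynomial (Fin n) K)} (h : ParL l)
    {p : MvPolynomial (Fin n) K} (hp : Lin p) : ParL (p :: l) := by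
  obtain ⟨A, x, y, h1, h2⟩ := h
  refine ⟨A, x, y, h1, fun q hq => ?_⟩
  rcases List.mem_cons.1 hq with rfl | hq
  · exact Or.inl hp
  · exact h2 q hq

theorem ParL.rename {n m : ℕ} {e : Fin n → Fin m} (he : Function.Injective e)
    {l : List (MvPolynomial (Fin n) K)} (h : ParL l) : ParL (l.map (rename e)) := by
  obtain ⟨A, x, y, h1, h2⟩ := h
  refine ⟨A, e ∘ x, e ∘ y, ?_, fun q hq => ?_⟩
  · rw [← Sum.comp_elim]
    exact he.comp h1
  · obtain ⟨p, hp, rfl⟩ := List.mem_map.1 hq
    rcases h2 p hp with h3 | ⟨a, rfl⟩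
    · exact Or.inl (h3.rename _)
    · refine Or.inr ⟨a, ?_⟩
      rw [map_sub, map_pow, rename_X, rename_X]
      rfl

theorem ParL.two {n : ℕ} {l : List (MvPolynomial (Fin n) K)} (h : ParL l) :
    ParL ((X (Fin.last (n + 1)) - X (Fin.castSucc (Fin.last n)) ^ 2 :
      MvPolynomial (Fin (n + 1 + 1)) K) :: l.map (MvPolynomial.rename
        (Fin.castSucc ∘ Fin.castSucc))) := by
  obtain ⟨A, x, y, h1, h2⟩ := h
  have hne : ∀ i : Fin n, Fin.castSucc (Fin.castSucc i) ≠ (Fin.last (n + 1) : Fin (n + 1 + 1)) :=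
    fun i => Fin.castSucc_ne_last _
  have hne' : ∀ i : Fin n, (Fin.castSucc (Fin.castSucc i) : Fin (n + 1 + 1)) ≠
      Fin.castSucc (Fin.last n) :=
    fun i h => Fin.castSucc_ne_last i (Fin.castSucc_injective _ h)
  have hl : (Fin.castSucc (Fin.last n) : Fin (n + 1 + 1)) ≠ Fin.last (n + 1) :=
    Fin.castSucc_ne_last _
  refine ⟨Option A, fun o => o.elim (Fin.castSucc (Fin.last n)) fun a =>
      Fin.castSucc (Fin.castSucc (x a)), fun o => o.elim (Fin.last (n + 1)) fun a =>
      Fin.castSucc (Fin.castSucc (y a)), ?_, ?_⟩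
  · rintro ((_ | a) | (_ | a)) ((_ | b) | (_ | b)) hab
    · rfl
    · exact absurd hab.symm (hne' _)
    · exact absurd hab hl
    · exact absurd hab.symm (hne' _)
    · exact absurd hab (hne' _)
    · have h3 := Fin.castSucc_injective _ (Fin.castSucc_injective _ hab)
      have h4 := @h1 (Sum.inl a) (Sum.inl b) h3
      rw [Sum.inl.inj h4]
    · exact absurd hab (hne _)
    · have h3 := Fin.castSucc_injective _ (Fin.castSucc_injective _ hab)
      exact absurd (@h1 (Sum.inl a) (Sum.inr b) h3) Sum.inl_ne_inr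
    · exact absurd hab.symm hl
    · exact absurd hab.symm (hne _)
    · rfl
    · exact absurd hab.symm (hne _)
    · exact absurd hab (hne' _)
    · have h3 := Fin.castSucc_injective _ (Fin.castSucc_injective _ hab)
      exact absurd (@h1 (Sum.inr a) (Sum.inl b) h3) Sum.inr_ne_inl
    · exact absurd hab (hne _)
    · have h3 := Fin.castSucc_injective _ (Fin.castSucc_injective _ hab)
      have h4 := @h1 (Sum.inr a) (Sum.inr b) h3
      rw [Sum.inr.inj h4]
  · intro p hp
    rcases List.mem_cons.1 hp with rfl | hp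
    · exact Or.inr ⟨none, rfl⟩
    · obtain ⟨p', hp', rfl⟩ := List.mem_map.1 hp
      rcases h2 p' hp' with h3 | ⟨a, rfl⟩
      · exact Or.inl (h3.rename _)
      · refine Or.inr ⟨some a, ?_⟩
        rw [map_sub, map_pow, rename_X, rename_X]
        rfl

/-- polynomials computed by additions and squarings -/
inductive Ex {n : ℕ} : MvPolynomial (Fin n) K → Prop
  | var (i : Fin n) : Ex (X i)
  | const (c : K) : Ex (C c)
  | add {p q : MvPolynomial (Fin n) K} : Ex p → Ex q → Ex (p + q)
  | sq (c : K) {p : MvPolynomial (Fin n) K} : Ex p → Ex (C c * p ^ 2)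

theorem ex_all (h2 : (2 : K) ≠ 0) {n : ℕ} (p : MvPolynomial (Fin n) K) : Ex p := by
  induction p using MvPolynomial.induction_on with
  | C a => exact Ex.const a
  | add p q hp hq => exact hp.add hq
  | mul_X p i hp =>
    have h : p * X i = C (2⁻¹ : K) * (p + X i) ^ 2 + (C (-2⁻¹ : K) * p ^ 2 +
        C (-2⁻¹ : K) * X i ^ 2) := by
      have h3 : (C (2⁻¹ : K) : MvPolynomial (Fin n) K) * 2 = 1 := by
        rw [show (2 : MvPolynomial (Fin n) K) = C (2 : K) by rw [map_ofNat], ← map_mul,
          inv_mul_cancel₀ h2, map_one]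
      rw [map_neg]
      linear_combination (-(p * X i)) * h3
    rw [h]
    exact (Ex.sq _ (hp.add (Ex.var i))).add ((Ex.sq _ hp).add (Ex.sq _ (Ex.var i)))

end

section
variable {K : Type} [Field K] (P : ∀ n : ℕ, Ideal (MvPolynomial (Fin n) K) → Prop)

/-- `P` holds for the ideals generated by `J` and linear polynomials and parabolas, in more
variables -/
def Ok {n : ℕ} (J : Ideal (MvPolynomial (Fin n) K)) : Prop :=
  ∀ (m : ℕ) (e : Fin n → Fin m) (l : List (MvPolynomial (Fin m) K)), Function.Injective e →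
    ParL l →
    P m (J.map (rename e : MvPolynomial (Fin n) K →ₐ[K] MvPolynomial (Fin m) K) ⊔
      Ideal.span {p | p ∈ l})

variable {P}

theorem map_ren {n m k : ℕ} (e : Fin n → Fin m) (e' : Fin m → Fin k)
    (J : Ideal (MvPolynomial (Fin n) K)) :
    (J.map (rename e : MvPolynomial (Fin n) K →ₐ[K] MvPolynomial (Fin m) K)).map
      (rename e' : MvPolynomial (Fin m) K →ₐ[K] MvPolynomial (Fin k) K) =
      J.map (rename (e' ∘ e) : MvPolynomial (Fin n) K →ₐ[K] MvPolynomial (Fin k) K) := by
  refine (Ideal.map_mapₐ _ _).trans ?_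
  congr 1
  apply MvPolynomial.algHom_ext
  intro i
  simp

theorem map_ren_id {n : ℕ} (J : Ideal (MvPolynomial (Fin n) K)) :
    J.map (rename id : MvPolynomial (Fin n) K →ₐ[K] MvPolynomial (Fin n) K) = J := by
  have h : (rename id : MvPolynomial (Fin n) K →ₐ[K] MvPolynomial (Fin n) K) =
      AlgHom.id K _ := by
    apply MvPolynomial.algHom_ext
    intro i
    simp
  rw [h]
  exact Ideal.map_id J

theorem Ok.map {n m : ℕ} {J : Ideal (MvPolynomial (Fin n) K)} (h : Ok P J)
    {e : Fin n → Fin m} (he : Function.Injective e) :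
    Ok P (J.map (rename e : MvPolynomial (Fin n) K →ₐ[K] MvPolynomial (Fin m) K)) := by
  intro k e' l he' hl
  rw [map_ren]
  exact h k _ l (he'.comp he) hl

theorem span_cons {A : Type} [CommRing A] (d : A) (l : List A) :
    Ideal.span {p | p ∈ d :: l} = Ideal.span {d} ⊔ Ideal.span {p | p ∈ l} := by
  rw [← Ideal.span_union]
  congr 1
  ext p
  simp

theorem Ok.lin {n : ℕ} {J : Ideal (MvPolynomial (Fin n) K)} (h : Ok P J)
    {d : MvPolynomial (Fin n) K} (hd : Lin d) : Ok P (J ⊔ Ideal.span {d}) := by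
  intro k e' l he' hl
  rw [Ideal.map_sup, Ideal.map_span, Set.image_singleton, sup_assoc]
  have h1 := h k e' (rename e' d :: l) he' (hl.cons (hd.rename e'))
  rw [span_cons] at h1
  exact h1

theorem sup_aux {A : Type} [CommRing A] (a b c r s : A) :
    Ideal.span {b + r * c + s * a} ⊔ Ideal.span {a} ⊔ Ideal.span {c} =
      Ideal.span {a} ⊔ Ideal.span {b} ⊔ Ideal.span {c} := by
  have ha : ∀ (I J : Ideal A), a ∈ I ⊔ Ideal.span {a} ⊔ J := fun I J =>
    Ideal.mem_sup_left (Ideal.mem_sup_right (Ideal.mem_span_singleton_self a))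
  have ha' : ∀ (I J : Ideal A), a ∈ Ideal.span {a} ⊔ I ⊔ J := fun I J =>
    Ideal.mem_sup_left (Ideal.mem_sup_left (Ideal.mem_span_singleton_self a))
  have hc : ∀ I : Ideal A, c ∈ I ⊔ Ideal.span {c} := fun I =>
    Ideal.mem_sup_right (Ideal.mem_span_singleton_self c)
  apply le_antisymm
  · refine sup_le (sup_le ?_ ?_) ?_
    · rw [Ideal.span_singleton_le_iff_mem]
      exact Ideal.add_mem _ (Ideal.add_mem _
        (Ideal.mem_sup_left (Ideal.mem_sup_right (Ideal.mem_span_singleton_self b)))
        (Ideal.mul_mem_left _ _ (hc _))) (Ideal.mul_mem_left _ _ (ha' _ _))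
    · rw [Ideal.span_singleton_le_iff_mem]
      exact ha' _ _
    · rw [Ideal.span_singleton_le_iff_mem]
      exact hc _
  · refine sup_le (sup_le ?_ ?_) ?_
    · rw [Ideal.span_singleton_le_iff_mem]
      exact ha _ _
    · rw [Ideal.span_singleton_le_iff_mem]
      have h : b = (b + r * c + s * a) - r * c - s * a := by ring
      rw [h]
      refine Ideal.sub_mem _ (Ideal.sub_mem _ ?_ (Ideal.mul_mem_left _ _ (hc _)))
        (Ideal.mul_mem_left _ _ (ha _ _))
      rw [← h]
      exact Ideal.mem_sup_left (Ideal.mem_sup_left (Ideal.mem_span_singleton_self _))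
    · rw [Ideal.span_singleton_le_iff_mem]
      exact hc _

theorem map_single {n m : ℕ} (e : Fin n → Fin m) (d : MvPolynomial (Fin n) K) :
    (Ideal.span {d}).map (rename e : MvPolynomial (Fin n) K →ₐ[K] MvPolynomial (Fin m) K) =
      Ideal.span {rename e d} := by
  rw [Ideal.map_span, Set.image_singleton]

theorem map_list {n m : ℕ} (e : Fin n → Fin m) (l : List (MvPolynomial (Fin n) K)) :
    Ideal.span {x | x ∈ l.map (rename e)} = (Ideal.span {x | x ∈ l}).map
      (rename e : MvPolynomial (Fin n) K →ₐ[K] MvPolynomial (Fin m) K) := by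
  rw [Ideal.map_span]
  congr 1
  ext x
  simp

theorem ok_ex (hs : ∀ (n : ℕ) (I : Ideal (MvPolynomial (Fin n) K)) (u : MvPolynomial (Fin n) K),
      constantCoeff u = 0 →
      P (n + 1) (I.map (rename Fin.castSucc : MvPolynomial (Fin n) K →ₐ[K] _) ⊔
        Ideal.span {X (Fin.last n) - rename Fin.castSucc u}) → P n I)
    {n : ℕ} {p : MvPolynomial (Fin n) K} (hp : Ex p) :
    ∀ (m : ℕ) (e : Fin n → Fin m) (q : MvPolynomial (Fin m) K), Lin q →
      ∀ J : Ideal (MvPolynomial (Fin m) K), Ok P J → Ok P (J ⊔ Ideal.span {q - rename e p}) := by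
  induction hp with
  | var i =>
    intro m e q hq J hJ
    refine hJ.lin (hq.sub ?_)
    rw [rename_X]
    exact lin_X _
  | const c =>
    intro m e q hq J hJ
    refine hJ.lin (hq.sub ?_)
    rw [rename_C]
    exact lin_C _
  | @add p1 p2 _ _ ih1 ih2 =>
    intro m e q hq J hJ m' e' l he' hl
    apply hs m' _ (rename (e' ∘ e) p1 - C (constantCoeff p1)) (by
      rw [map_sub, constantCoeff_rename, constantCoeff_C, sub_self])
    have hw : Lin (X (Fin.last m') + C (constantCoeff p1) : MvPolynomial (Fin (m' + 1)) K) :=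
      (lin_X _).add (lin_C _)
    have a1 := ih1 (m' + 1) (Fin.castSucc ∘ e' ∘ e) _ hw _
      (hJ.map ((Fin.castSucc_injective _).comp he'))
    have a2 := ih2 (m' + 1) (Fin.castSucc ∘ e' ∘ e) (rename (Fin.castSucc ∘ e') q -
      (X (Fin.last m') + C (constantCoeff p1))) ((hq.rename _).sub hw) _ a1
    have a3 := a2 (m' + 1) id (l.map (rename Fin.castSucc)) Function.injective_id
      (hl.rename (Fin.castSucc_injective _))
    rw [map_ren_id, map_list] at a3
    rw [Ideal.map_sup, Ideal.map_sup, Ideal.map_sup, map_ren, Ideal.map_span, Ideal.map_span,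
      Set.image_singleton, Set.image_singleton]
    convert a3 using 1
    set A := (X (Fin.last m') + C (constantCoeff p1) -
      rename (Fin.castSucc ∘ e' ∘ e) p1 : MvPolynomial (Fin (m' + 1)) K) with hA
    set B := (rename (Fin.castSucc ∘ e') q - (X (Fin.last m') + C (constantCoeff p1)) -
      rename (Fin.castSucc ∘ e' ∘ e) p2 : MvPolynomial (Fin (m' + 1)) K) with hB
    have e1 : (X (Fin.last m') - rename Fin.castSucc (rename (e' ∘ e) p1 -
        C (constantCoeff p1)) : MvPolynomial (Fin (m' + 1)) K) = A := by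
      rw [hA, map_sub, rename_C, rename_rename]
      ring
    have e2 : rename Fin.castSucc (rename e' (q - rename e (p1 + p2))) =
        B + 0 * 0 + 1 * A := by
      rw [hA, hB]
      simp only [map_sub, map_add, rename_rename]
      ring
    rw [e1]
    erw [e2]
    have h3 := sup_aux A B 0 0 1
    rw [Ideal.span_singleton_eq_bot.2 rfl, sup_bot_eq, sup_bot_eq] at h3
    calc _ = J.map (rename (Fin.castSucc ∘ e') : MvPolynomial (Fin m) K →ₐ[K] _) ⊔
          (Ideal.span {B + 0 * 0 + 1 * A} ⊔ Ideal.span {A}) ⊔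
          (Ideal.span {x | x ∈ l}).map (rename Fin.castSucc : MvPolynomial (Fin m') K →ₐ[K]
            MvPolynomial (Fin (m' + 1)) K) := by ac_rfl
      _ = _ := by
        rw [h3]
        ac_rfl
  | @sq c p1 _ ih1 =>
    intro m e q hq J hJ m' e' l he' hl
    apply hs m' _ (rename (e' ∘ e) p1 - C (constantCoeff p1)) (by
      rw [map_sub, constantCoeff_rename, constantCoeff_C, sub_self])
    apply hs (m' + 1) _ (X (Fin.last m') ^ 2) (by
      rw [map_pow, constantCoeff_X, zero_pow two_ne_zero])
    set s : Fin m' → Fin (m' + 1 + 1) := Fin.castSucc ∘ Fin.castSucc with hsd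
    have hsi : Function.Injective s := (Fin.castSucc_injective _).comp (Fin.castSucc_injective _)
    set w : MvPolynomial (Fin (m' + 1 + 1)) K := X (Fin.castSucc (Fin.last m')) with hwd
    set v : MvPolynomial (Fin (m' + 1 + 1)) K := X (Fin.last (m' + 1)) with hvd
    have hw : Lin (w + C (constantCoeff p1)) := (lin_X _).add (lin_C _)
    have a1 := ih1 (m' + 1 + 1) (s ∘ e' ∘ e) _ hw _ (hJ.map (hsi.comp he'))
    have hw2 : Lin (C c * (v + C (2 * constantCoeff p1) * w + C (constantCoeff p1 ^ 2))) :=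
      (((lin_X _).add ((lin_X _).Cmul _)).add (lin_C _)).Cmul c
    have a2 := a1.lin ((hq.rename (s ∘ e')).sub hw2)
    have a3 := a2 (m' + 1 + 1) id _ Function.injective_id hl.two
    rw [map_ren_id, span_cons, ← hsd, ← hwd, ← hvd, map_list] at a3
    simp only [Ideal.map_sup, map_ren, map_single, rename_rename, map_sub, map_mul, map_pow,
      rename_C, rename_X]
    rw [show Fin.castSucc ∘ Fin.castSucc ∘ e' = s ∘ e' from rfl]
    convert a3 using 1
    set A := (w + C (constantCoeff p1) - rename (s ∘ e' ∘ e) p1 :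
      MvPolynomial (Fin (m' + 1 + 1)) K) with hA
    set B := (rename (s ∘ e') q - C c * (v + C (2 * constantCoeff p1) * w +
      C (constantCoeff p1 ^ 2)) : MvPolynomial (Fin (m' + 1 + 1)) K) with hB
    have e1 : (w - (rename (s ∘ e' ∘ e) p1 - C (constantCoeff p1)) :
        MvPolynomial (Fin (m' + 1 + 1)) K) = A := by
      rw [hA]
      ring
    have e2 : (rename (s ∘ e') q - C c * rename (s ∘ e' ∘ e) p1 ^ 2 :
        MvPolynomial (Fin (m' + 1 + 1)) K) =
        B + C c * (v - w ^ 2) + (C c * (w + C (constantCoeff p1) + rename (s ∘ e' ∘ e) p1)) *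
          A := by
      rw [hA, hB]
      simp only [map_mul, map_pow, map_ofNat]
      ring
    rw [show Fin.castSucc ∘ Fin.castSucc ∘ e' ∘ e = s ∘ e' ∘ e from rfl, ← hsd]
    change _ ⊔ _ ⊔ _ ⊔ Ideal.span {(w - (rename (s ∘ e' ∘ e) p1 - C (constantCoeff p1)) :
        MvPolynomial (Fin (m' + 1 + 1)) K)} ⊔ Ideal.span {v - w ^ 2} = _
    rw [e1, e2]
    have h3 := sup_aux A B (v - w ^ 2) (C c)
      (C c * (w + C (constantCoeff p1) + rename (s ∘ e' ∘ e) p1))
    calc _ = J.map (rename (s ∘ e') : MvPolynomial (Fin m) K →ₐ[K] _) ⊔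
          (Ideal.span {B + C c * (v - w ^ 2) + (C c * (w + C (constantCoeff p1) +
            rename (s ∘ e' ∘ e) p1)) * A} ⊔ Ideal.span {A} ⊔ Ideal.span {v - w ^ 2}) ⊔
          (Ideal.span {x | x ∈ l}).map (rename s : MvPolynomial (Fin m') K →ₐ[K]
            MvPolynomial (Fin (m' + 1 + 1)) K) := by ac_rfl
      _ = _ := by
        rw [h3]
        simp only [sup_assoc]

/-- **The reduction principle.** -/
theorem red_ideal (h2 : (2 : K) ≠ 0)
    (hd : ∀ (n : ℕ) (l : List (MvPolynomial (Fin n) K)), ParL l →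
      P n (Ideal.span {p | p ∈ l}))
    (hs : ∀ (n : ℕ) (I : Ideal (MvPolynomial (Fin n) K)) (u : MvPolynomial (Fin n) K),
      constantCoeff u = 0 →
      P (n + 1) (I.map (rename Fin.castSucc : MvPolynomial (Fin n) K →ₐ[K] _) ⊔
        Ideal.span {X (Fin.last n) - rename Fin.castSucc u}) → P n I)
    (n : ℕ) (I : Ideal (MvPolynomial (Fin n) K)) : P n I := by
  classical
  have key : ∀ S : Finset (MvPolynomial (Fin n) K),
      Ok P (Ideal.span (S : Set (MvPolynomial (Fin n) K))) := by
    intro S
    induction S using Finset.induction_on with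
    | empty =>
      rw [Finset.coe_empty, Ideal.span_empty]
      intro m e l _ hl
      rw [Ideal.map_bot, bot_sup_eq]
      exact hd m l hl
    | insert a S _ ih =>
      have h0 : Lin (0 : MvPolynomial (Fin n) K) := by
        rw [← C_0]
        exact lin_C 0
      have h1 := ok_ex hs (ex_all h2 (-a)) n id 0 h0 _ ih
      rw [map_neg, zero_sub, neg_neg, rename_id_apply] at h1
      rw [Finset.coe_insert, Set.insert_eq, Ideal.span_union, sup_comm]
      exact h1
  obtain ⟨S, hS⟩ := (IsNoetherian.noetherian I : I.FG)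
  have h1 := key S n id [] Function.injective_id
    ⟨Empty, Empty.elim, Empty.elim, fun a => by rcases a with a | a <;> exact a.elim, by simp⟩
  rw [map_ren_id] at h1
  have h3 : ({p | p ∈ ([] : List (MvPolynomial (Fin n) K))} : Set (MvPolynomial (Fin n) K)) =
      ∅ := by
    ext p
    simp
  rw [h3, Ideal.span_empty, sup_bot_eq] at h1
  have h4 : Ideal.span (S : Set (MvPolynomial (Fin n) K)) = I := hS
  rwa [h4] at h1

end

end Pool.Agent.Run7.h768.QI
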