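import Pool.Agent.Run7.h768.QI.Jets
import Pool.Agent.N101.CB.Form

/-!
# Motivic and topological zeta functions of ideals: the graph step `I ↦ (I, w - u)` (II)
-/

set_option autoImplicit false

namespace Pool.Agent.Run7.h768.QI

open MvPolynomial Pool.Agent.W428.MOT Pool.Agent.W375.MT Pool.Agent.N101.CB
open Pool.Agent.Y229.MS (rescale_X' rescale_C')
open Pool.Agent.W63.MTFin (geo_mul geo_mem X_mem C_mem)

section
variable {K : Type} [Field K] {n r : ℕ} {R : Type} [CommRing R]

/-- the classes of the arcs with `ord ≥ N` -/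
noncomputable def phiI (M : Meas K R) (Y : R) (f : Fin r → MvPolynomial (Fin n) K)
    (W : Set (Pt K (Fin n))) : PowerSeries R :=
  PowerSeries.mk fun N => M.χ _ (TlI f W N N) * Y ^ (n * N)

/-- the classes of the arcs with `ord = N` -/
noncomputable def zsI (M : Meas K R) (Y : R) (f : Fin r → MvPolynomial (Fin n) K)
    (W : Set (Pt K (Fin n))) : PowerSeries R :=
  PowerSeries.mk fun N => M.χ _ (JetI f W N) * Y ^ (n * N)

theorem X_zsI (M : Meas K R) (Y : R) (hL : M.L * Y = 1) (f : Fin r → MvPolynomial (Fin n) K)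
    {W : Set (Pt K (Fin n))} (hW : Constr W) :
    PowerSeries.X * zsI M Y f W =
      PowerSeries.C (M.χ (Fin n) W) - (1 - PowerSeries.X) * phiI M Y f W := by
  rw [sub_mul, one_mul]
  ext N
  rcases N with _ | N
  · rw [PowerSeries.coeff_zero_X_mul, map_sub, map_sub, PowerSeries.coeff_zero_X_mul,
      PowerSeries.coeff_zero_C, phiI, PowerSeries.coeff_mk, mul_zero, pow_zero, mul_one,
      tlI_zero M f hW]
    ring
  · rw [PowerSeries.coeff_succ_X_mul, map_sub, map_sub, PowerSeries.coeff_succ_X_mul,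
      PowerSeries.coeff_C, if_neg (Nat.succ_ne_zero N), phiI, zsI, PowerSeries.coeff_mk,
      PowerSeries.coeff_mk, PowerSeries.coeff_mk, twoI M f hW (N + 1) N le_rfl,
      tlI_split M f hW N]
    have h : M.L ^ n * Y ^ (n * (N + 1)) = Y ^ (n * N) := by
      rw [mul_add, mul_one, pow_add, mul_left_comm, ← mul_pow, hL, one_pow, mul_one]
    linear_combination (M.χ _ (TlI f W (N + 1) N)) * h

theorem phi_glob (M : Meas K R) (Y : R) (f : Fin r → MvPolynomial (Fin n) K)
    (u : MvPolynomial (Fin n) K) {W : Set (Pt K (Fin n))} (hW : Constr W) :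
    phiI M Y (gs f u) (Wx W) = PowerSeries.C M.L * PowerSeries.rescale Y (phiI M Y f W) := by
  ext N
  rw [PowerSeries.coeff_C_mul, PowerSeries.coeff_rescale, phiI, phiI, PowerSeries.coeff_mk,
    PowerSeries.coeff_mk, tlI_gs M f u hW, add_mul, one_mul, pow_add]
  ring

theorem chi_Wx (M : Meas K R) (f : Fin r → MvPolynomial (Fin n) K)
    (u : MvPolynomial (Fin n) K) {W : Set (Pt K (Fin n))} (hW : Constr W) :
    M.χ (Fin (n + 1)) (Wx W) = M.L * M.χ (Fin n) W := by
  rw [← tlI_zero M (gs f u) (constr_Wx hW), tlI_gs M f u hW, tlI_zero M f hW, mul_comm]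

theorem phi_loc (M : Meas K R) (Y : R) (f : Fin r → MvPolynomial (Fin n) K)
    (u : MvPolynomial (Fin n) K) {W : Set (Pt K (Fin n))} (hW : Constr W)
    (hu : ∀ z ∈ W, aeval z u = 0) :
    phiI M Y (gs f u) (W0 W) = PowerSeries.C M.L * PowerSeries.rescale Y (phiI M Y f W) -
      PowerSeries.C ((M.L - 1) * M.χ (Fin n) W) := by
  rw [← phi_glob M Y f u hW]
  ext N
  rcases N with _ | N
  · rw [map_sub, PowerSeries.coeff_zero_C, phiI, phiI, PowerSeries.coeff_mk,
      PowerSeries.coeff_mk, mul_zero, pow_zero, mul_one, mul_one, tlI_zero M _ (constr_W0 hW),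
      tlI_zero M _ (constr_Wx hW), chi_W0 M hW, chi_Wx M f u hW]
    ring
  · rw [map_sub, PowerSeries.coeff_C, if_neg (Nat.succ_ne_zero N), phiI, phiI,
      PowerSeries.coeff_mk, PowerSeries.coeff_mk, tlI_W0 f u hu (Nat.succ_pos N), sub_zero]

theorem zs_glob (M : Meas K R) (Y : R) (hL : M.L * Y = 1) (f : Fin r → MvPolynomial (Fin n) K)
    (u : MvPolynomial (Fin n) K) {W : Set (Pt K (Fin n))} (hW : Constr W) :
    (1 - PowerSeries.C Y * PowerSeries.X) * zsI M Y (gs f u) (Wx W) =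
      (1 - PowerSeries.X) * PowerSeries.rescale Y (zsI M Y f W) +
        PowerSeries.C ((M.L - 1) * M.χ (Fin n) W) := by
  have h1 := X_zsI M Y hL f hW
  have h2 := X_zsI M Y hL (gs f u) (constr_Wx hW)
  rw [phi_glob M Y f u hW, chi_Wx M f u hW, map_mul] at h2
  have h3 := congrArg (PowerSeries.rescale Y) h1
  rw [map_mul, map_sub, map_mul, map_sub, map_one, rescale_C', rescale_X'] at h3
  have hC : PowerSeries.C M.L * PowerSeries.C Y = (1 : PowerSeries R) := by
    rw [← map_mul, hL, map_one]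
  rw [map_mul, map_sub, map_one]
  apply idd_cancel
  generalize PowerSeries.rescale Y (phiI M Y f W) = P at h2 h3
  generalize PowerSeries.rescale Y (zsI M Y f W) = ZY at h3 ⊢
  generalize PowerSeries.C M.L = a at *
  generalize PowerSeries.C Y = y at *
  generalize PowerSeries.C (M.χ (Fin n) W) = w' at *
  linear_combination (1 - y * PowerSeries.X) * h2 - (1 - PowerSeries.X) * a * h3 +
    (-(w' * PowerSeries.X) + (1 - PowerSeries.X) * PowerSeries.X * ZY +
      w' * PowerSeries.X - w' * PowerSeries.X) * hC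

theorem zs_loc (M : Meas K R) (Y : R) (hL : M.L * Y = 1) (f : Fin r → MvPolynomial (Fin n) K)
    (u : MvPolynomial (Fin n) K) {W : Set (Pt K (Fin n))} (hW : Constr W)
    (hu : ∀ z ∈ W, aeval z u = 0) :
    (1 - PowerSeries.C Y * PowerSeries.X) * zsI M Y (gs f u) (W0 W) =
      (1 - PowerSeries.X) * PowerSeries.rescale Y (zsI M Y f W) +
        PowerSeries.C ((1 - Y) * M.χ (Fin n) W) * PowerSeries.X := by
  have h1 := X_zsI M Y hL f hW
  have h2 := X_zsI M Y hL (gs f u) (constr_W0 hW)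
  rw [phi_loc M Y f u hW hu, chi_W0 M hW, map_mul, map_sub, map_one] at h2
  have h3 := congrArg (PowerSeries.rescale Y) h1
  rw [map_mul, map_sub, map_mul, map_sub, map_one, rescale_C', rescale_X'] at h3
  have hC : PowerSeries.C M.L * PowerSeries.C Y = (1 : PowerSeries R) := by
    rw [← map_mul, hL, map_one]
  rw [map_mul, map_sub, map_one]
  apply idd_cancel
  generalize PowerSeries.rescale Y (phiI M Y f W) = P at h2 h3
  generalize PowerSeries.rescale Y (zsI M Y f W) = ZY at h3 ⊢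
  generalize PowerSeries.C M.L = a at *
  generalize PowerSeries.C Y = y at *
  generalize PowerSeries.C (M.χ (Fin n) W) = w' at *
  linear_combination (1 - y * PowerSeries.X) * h2 - (1 - PowerSeries.X) * a * h3 +
    ((1 - PowerSeries.X) * PowerSeries.X * ZY - (PowerSeries.X - PowerSeries.X ^ 2) * w') * hC

end

section
variable {K : Type} [Field K] [CharZero K] {n r : ℕ}

theorem ztI_glob (f : Fin r → MvPolynomial (Fin n) K) (u : MvPolynomial (Fin n) K)
    {W : Set (Pt K (Fin n))} (hW : Constr W) :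
    (1 - cY K * PowerSeries.X) * ztI (gs f u) (Wx W) =
      (1 - PowerSeries.X) * PowerSeries.rescale (((Lu K)⁻¹ : (MK K)ˣ) : MK K) (ztI f W) +
        PowerSeries.C ((((Lu K : (MK K)ˣ) : MK K) - 1) * clM W) := by
  obtain ⟨M, hM, hML⟩ := clM_full K
  have hL : M.L * (((Lu K)⁻¹ : (MK K)ˣ) : MK K) = 1 := by rw [hML, Units.mul_inv]
  have hz : ∀ {a b : ℕ} (g : Fin b → MvPolynomial (Fin a) K) (V : Set (Pt K (Fin a))),
      ztI g V = zsI M (((Lu K)⁻¹ : (MK K)ˣ) : MK K) g V := by
    intro a b g V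
    ext N
    rw [ztI, zsI, PowerSeries.coeff_mk, PowerSeries.coeff_mk, zpow_neg, zpow_natCast, ← inv_pow,
      Units.val_pow_eq_pow_val, hM]
  have h := zs_glob M _ hL f u hW
  rw [← hz, ← hz, hM, hML] at h
  exact h

theorem ztI_loc (f : Fin r → MvPolynomial (Fin n) K) (u : MvPolynomial (Fin n) K)
    {W : Set (Pt K (Fin n))} (hW : Constr W) (hu : ∀ z ∈ W, aeval z u = 0) :
    (1 - cY K * PowerSeries.X) * ztI (gs f u) (W0 W) =
      (1 - PowerSeries.X) * PowerSeries.rescale (((Lu K)⁻¹ : (MK K)ˣ) : MK K) (ztI f W) +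
        PowerSeries.C ((1 - (((Lu K)⁻¹ : (MK K)ˣ) : MK K)) * clM W) * PowerSeries.X := by
  obtain ⟨M, hM, hML⟩ := clM_full K
  have hL : M.L * (((Lu K)⁻¹ : (MK K)ˣ) : MK K) = 1 := by rw [hML, Units.mul_inv]
  have hz : ∀ {a b : ℕ} (g : Fin b → MvPolynomial (Fin a) K) (V : Set (Pt K (Fin a))),
      ztI g V = zsI M (((Lu K)⁻¹ : (MK K)ˣ) : MK K) g V := by
    intro a b g V
    ext N
    rw [ztI, zsI, PowerSeries.coeff_mk, PowerSeries.coeff_mk, zpow_neg, zpow_natCast, ← inv_pow,
      Units.val_pow_eq_pow_val, hM]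
  have h := zs_loc M _ hL f u hW hu
  rw [← hz, ← hz, hM] at h
  exact h

/-- **Descent of the poles.** -/
theorem rgI_descend {Z Z' c : PowerSeries (MK K)}
    (h : (1 - cY K * PowerSeries.X) * Z' =
      (1 - PowerSeries.X) * PowerSeries.rescale (((Lu K)⁻¹ : (MK K)ˣ) : MK K) Z + c) {s₀ : ℚ}
    (h0 : s₀ < 0) (hc : PowerSeries.rescale ((Lu K : (MK K)ˣ) : MK K) c ∈ rg K s₀)
    (hZ : Z' ∈ rg K (s₀ - 1)) : Z ∈ rg K s₀ := by
  have hL := cL_cY (K := K)
  have e4 := congrArg (PowerSeries.rescale ((Lu K : (MK K)ˣ) : MK K)) h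
  rw [map_mul, map_add, map_mul, rescale_inv, map_sub, map_sub, map_one, map_mul, rescale_X', cY,
    rescale_C', ← cY] at e4
  change (1 - cY K * (cL K * PowerSeries.X)) * _ = (1 - cL K * PowerSeries.X) * Z + _ at e4
  have g1 : (1 - cL K * PowerSeries.X) * geo K 1 1 = 1 := by
    have := geo_mul (K := K) 1 1 one_pos
    rwa [show (1 : ℤ).toNat = 1 from rfl, zpow_one, pow_one] at this
  have e5 : Z = geo K 1 1 * ((1 - PowerSeries.X) *
      PowerSeries.rescale ((Lu K : (MK K)ˣ) : MK K) Z' -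
        PowerSeries.rescale ((Lu K : (MK K)ˣ) : MK K) c) := by
    set R := PowerSeries.rescale ((Lu K : (MK K)ˣ) : MK K)
    linear_combination (-Z) * g1 + (-(geo K 1 1)) * e4 +
      (-(geo K 1 1) * PowerSeries.X * R Z') * hL
  rw [e5]
  refine (rg K s₀).mul_mem (geo_mem (p := ((1 : ℤ), (1 : ℤ))) ⟨one_pos, ?_⟩)
    ((rg K s₀).sub_mem ((rg K s₀).mul_mem ((rg K s₀).sub_mem
      (rg K s₀).one_mem (X_mem _)) (rescale_rg hZ)) hc)
  intro h2
  rw [← h2] at h0
  norm_num at h0

end

end Pool.Agent.Run7.h768.QI
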