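import Pool.Agent.Run7.h768.QI.Span
import Pool.Agent.Run7.h768.QI.ZF
import Pool.Agent.Run7.h768.QI.BF3
import Pool.Agent.Run7.h768.QI.Red
import Pool.Agent.N101.CB.Form

/-!
# All the relations between an ideal and the ideal `(I, w_1 - u_1, ..., w_κ - u_κ)`
-/

set_option autoImplicit false

namespace Pool.Agent.Run7.h768.QI

open MvPolynomial Pool.Agent.W428.MOT Pool.Agent.N101.CB
open Pool.Agent.W574.SM (IsFunctionalEq)

/-- The motivic zeta function `Z^mot_I = 𝕃 ^ (-n) ∑_N [X_N] 𝕃 ^ (-n N) T ^ N` of the ideal `I`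
generated by the `f_j` in `n` variables: `X_N` is the variety of the `N`-jets `ψ` with `ψ(0) ∈ W` and
`ord_ψ I = N`. -/
noncomputable def ZmotI {n r : ℕ} (f : Fin r → MvPolynomial (Fin n) ℂ) (W : Set (Pt ℂ (Fin n))) :
    PowerSeries (MK ℂ) :=
  PowerSeries.C (((Lu ℂ) ^ (-(n : ℤ)) : (MK ℂ)ˣ) : MK ℂ) * ztI f W

/-- `Z^mot_I - 1` -/
noncomputable def DI {n r : ℕ} (f : Fin r → MvPolynomial (Fin n) ℂ) : PowerSeries (MK ℂ) :=
  ZmotI f Set.univ - 1

/-- `Z^mot_{I, 0} - 𝕃 ^ (-n)` -/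
noncomputable def DI0 {n r : ℕ} (f : Fin r → MvPolynomial (Fin n) ℂ) : PowerSeries (MK ℂ) :=
  ZmotI f {0} - cYk n

section
variable {n r : ℕ} (f : Fin r → MvPolynomial (Fin n) ℂ) (u : MvPolynomial (Fin n) ℂ)

theorem z_univ : (1 - cY ℂ * PowerSeries.X) * ztI (gs f u) Set.univ =
    (1 - PowerSeries.X) * PowerSeries.rescale (((Lu ℂ)⁻¹ : (MK ℂ)ˣ) : MK ℂ) (ztI f Set.univ) +
      (cL ℂ - 1) * cL ℂ ^ n := by
  have h := ztI_glob f u (W := Set.univ) Constr.univ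
  rw [wx_univ, clM_univ, map_mul, map_sub, map_one, map_pow] at h
  exact h

theorem z_zero (hu : constantCoeff u = 0) : (1 - cY ℂ * PowerSeries.X) * ztI (gs f u) {0} =
    (1 - PowerSeries.X) * PowerSeries.rescale (((Lu ℂ)⁻¹ : (MK ℂ)ˣ) : MK ℂ) (ztI f {0}) +
      (1 - cY ℂ) * PowerSeries.X := by
  have h := ztI_loc f u (W := {0}) constr_zero (zero_aeval u hu)
  rw [w0_zero, clM_zero, mul_one, map_sub, map_one] at h
  exact h

theorem DI_step : (1 - cYk 1 * PowerSeries.X) * DI (gs f u) =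
    cYk 1 * (1 - PowerSeries.X) * rsk 1 (DI f) := by
  have hL := cL_cY (K := ℂ)
  have hZ := z_univ f u
  rw [← rsk_one] at hZ
  have hn := pow_cYk n
  unfold DI ZmotI
  rw [map_sub, map_mul, map_one]
  change (1 - cYk 1 * PowerSeries.X) * (cYk (n + 1) * ztI (gs f u) Set.univ - 1) = _
  have e2 : rsk 1 (PowerSeries.C (((Lu ℂ) ^ (-(n : ℤ)) : (MK ℂ)ˣ) : MK ℂ)) = cYk n := rsk_C _ _
  rw [e2, cYk_add]
  rw [← cYk_one] at hZ hL
  linear_combination (cYk n * cYk 1) * hZ + (cYk 1 * (cL ℂ - 1)) * hn + hL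

theorem DI0_step (hu : constantCoeff u = 0) : (1 - cYk 1 * PowerSeries.X) * DI0 (gs f u) =
    cYk 1 * (1 - PowerSeries.X) * rsk 1 (DI0 f) := by
  have hZ := z_zero f u hu
  rw [← rsk_one] at hZ
  unfold DI0 ZmotI
  rw [map_sub, map_mul]
  change (1 - cYk 1 * PowerSeries.X) * (cYk (n + 1) * ztI (gs f u) {0} - cYk (n + 1)) = _
  have e2 : rsk 1 (PowerSeries.C (((Lu ℂ) ^ (-(n : ℤ)) : (MK ℂ)ˣ) : MK ℂ)) = cYk n := rsk_C _ _
  have e3 : rsk 1 (cYk n) = cYk n := rsk_C _ _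
  rw [e2, e3, cYk_add]
  rw [← cYk_one] at hZ
  linear_combination (cYk n * cYk 1) * hZ

theorem uc {A B : PowerSeries (MK ℂ)} (h : (1 - cY ℂ * PowerSeries.X) * A =
    (1 - cY ℂ * PowerSeries.X) * B) : A = B := unit_cancel h

/-- the global zeta function, in the form of the formula with a resolution -/
theorem z_univ' : ztI (gs f u) Set.univ =
    PowerSeries.C (clM (Set.univ : Set (Pt ℂ (Fin n)))) * (cL ℂ - 1 + Fz ℂ 1 1) +
      (1 - Fz ℂ 1 1) * PowerSeries.rescale (((Lu ℂ)⁻¹ : (MK ℂ)ˣ) : MK ℂ) (ztI f Set.univ) := by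
  have hF := Fz_mul (K := ℂ)
  have hL := cL_cY (K := ℂ)
  apply uc
  rw [z_univ, clM_univ, map_pow]
  change _ = (1 - cY ℂ * PowerSeries.X) * (cL ℂ ^ n * _ + _)
  linear_combination (-(cL ℂ ^ n) + PowerSeries.rescale (((Lu ℂ)⁻¹ : (MK ℂ)ˣ) : MK ℂ)
    (ztI f Set.univ)) * hF +
    (PowerSeries.X * PowerSeries.rescale (((Lu ℂ)⁻¹ : (MK ℂ)ˣ) : MK ℂ) (ztI f Set.univ)) * hL

/-- the local zeta function, in the form of the formula with a resolution -/
theorem z_zero' (hu : constantCoeff u = 0) : ztI (gs f u) {0} =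
    Fz ℂ 1 1 + (1 - Fz ℂ 1 1) *
      PowerSeries.rescale (((Lu ℂ)⁻¹ : (MK ℂ)ˣ) : MK ℂ) (ztI f {0}) := by
  have hF := Fz_mul (K := ℂ)
  have hL := cL_cY (K := ℂ)
  apply uc
  rw [z_zero f u hu]
  linear_combination (-1 + PowerSeries.rescale (((Lu ℂ)⁻¹ : (MK ℂ)ˣ) : MK ℂ)
    (ztI f {0})) * hF +
    (PowerSeries.X * PowerSeries.rescale (((Lu ℂ)⁻¹ : (MK ℂ)ˣ) : MK ℂ) (ztI f {0}) -
      PowerSeries.X) * hL

end

/-! ### Topological zeta functions -/

/-- The formula `(s + κ) (R'(s) - 1) = s (R(s + κ) - 1)`. -/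
def TFI (κ : ℕ) (R R' : RatFunc ℂ) : Prop :=
  (RatFunc.X + (κ : RatFunc ℂ)) * (R' - 1) = RatFunc.X * (shR (κ : ℂ) R - 1)

theorem TFI.refl (R : RatFunc ℂ) : TFI 0 R R := by
  unfold TFI
  rw [Nat.cast_zero, Nat.cast_zero, shR_zero]
  ring

theorem TFI.one (R : RatFunc ℂ) : TFI 1 R (topStepI 1 R) := by
  unfold TFI topStepI
  rw [ft00, map_add, RatFunc.algebraMap_X]
  simp only [map_one, Nat.cast_one]
  have h := lin_ne 1
  rw [map_one] at h
  field_simp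
  ring

theorem TFI.comp {R S T : RatFunc ℂ} (κ : ℕ) (h1 : TFI 1 R S) (h2 : TFI κ S T) :
    TFI (κ + 1) R T := by
  unfold TFI at *
  have h3 := congrArg (shR (κ : ℂ)) h1
  rw [map_mul, map_mul, map_sub, map_sub, map_add, map_one, Nat.cast_one, Nat.cast_one, map_one,
    shR_X, shR_add, map_natCast] at h3
  have h4 := lin_ne (κ : ℂ)
  rw [map_natCast] at h4
  apply mul_left_cancel₀ h4
  push_cast
  linear_combination (RatFunc.X + (κ : RatFunc ℂ) + 1) * h2 + RatFunc.X * h3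

theorem reg_of_shR' {R : RatFunc ℂ} {s a : ℂ} (h : Reg (shR a R) (s - a)) : Reg R s := by
  have h1 := h.shR (-a)
  rw [shR_shR] at h1
  simpa using h1

theorem reg_one (s : ℂ) : Reg 1 s := by
  have h := Reg.poly 1 s
  rwa [map_one] at h

/-- **Descent of the poles.** -/
theorem TFI.pole {κ : ℕ} {R R' : RatFunc ℂ} (h : TFI κ R R') {s : ℂ}
    (hs : ∃ q : ℚ, q < 0 ∧ s = (q : ℂ)) (hR : ¬ Reg R s) : ¬ Reg R' (s - κ) := by
  intro h1
  apply hR
  apply reg_of_shR' (a := (κ : ℂ))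
  have hk : s - κ ≠ 0 := by
    obtain ⟨q, hq, rfl⟩ := hs
    intro h2
    have h3 : q - κ = 0 := by exact_mod_cast h2
    have h4 : (0 : ℚ) ≤ κ := Nat.cast_nonneg κ
    linarith
  have a1 : (Polynomial.X : Polynomial ℂ).eval (s - κ) ≠ 0 := by
    rwa [Polynomial.eval_X]
  have b1 := ne0 a1
  have e : shR (κ : ℂ) R = 1 + algebraMap (Polynomial ℂ) (RatFunc ℂ) (Polynomial.X + (κ : Polynomial ℂ)) *
      ((algebraMap (Polynomial ℂ) (RatFunc ℂ) Polynomial.X)⁻¹ * (R' - 1)) := by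
    unfold TFI at h
    rw [map_add, map_natCast]
    rw [RatFunc.algebraMap_X] at b1 ⊢
    field_simp
    linear_combination -h
  rw [e]
  exact (reg_one _).add ((Reg.poly _ _).mul ((Reg.inv a1).mul (h1.sub (reg_one _))))

/-- All the relations between `f` and `F`. -/
structure RlI {n r m s : ℕ} (f : Fin r → MvPolynomial (Fin n) ℂ)
    (F : Fin s → MvPolynomial (Fin m) ℂ) (κ : ℕ) : Prop where
  ne : (∃ j, f j ≠ 0) → ∃ j, F j ≠ 0
  ntop : Ideal.span (Set.range f) ≠ ⊤ → Ideal.span (Set.range F) ≠ ⊤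
  const : (∀ j, constantCoeff (f j) = 0) → ∀ j, constantCoeff (F j) = 0
  glob : (1 - cYk κ * PowerSeries.X) * DI F = cYk κ * (1 - PowerSeries.X) * rsk κ (DI f)
  loc : (1 - cYk κ * PowerSeries.X) * DI0 F = cYk κ * (1 - PowerSeries.X) * rsk κ (DI0 f)
  pole : ∀ s₀ : ℚ, s₀ < 0 → IsPole (ztI f Set.univ) s₀ → IsPole (ztI F Set.univ) (s₀ - κ)
  lpole : ∀ s₀ : ℚ, s₀ < 0 → IsPole (ztI f {0}) s₀ → IsPole (ztI F {0}) (s₀ - κ)
  b : (∃ j, f j ≠ 0) → ∀ b : Polynomial ℂ, IsFunctionalEq f b →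
    IsFunctionalEq F (b.comp (Polynomial.X + Polynomial.C (κ : ℂ)))
  top : ∀ χ : MK ℂ →+* ℂ, χ ((Lu ℂ : (MK ℂ)ˣ) : MK ℂ) = 1 → ∀ R : RatFunc ℂ,
    IsTop χ (ztI f Set.univ) R → ∃ R' : RatFunc ℂ, IsTop χ (ztI F Set.univ) R' ∧ TFI κ R R'
  ltop : ∀ χ : MK ℂ →+* ℂ, χ ((Lu ℂ : (MK ℂ)ˣ) : MK ℂ) = 1 → ∀ R : RatFunc ℂ,
    IsTop χ (ztI f {0}) R → ∃ R' : RatFunc ℂ, IsTop χ (ztI F {0}) R' ∧ TFI κ R R'

theorem RlI.refl {n r s : ℕ} (f : Fin r → MvPolynomial (Fin n) ℂ)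
    (F : Fin s → MvPolynomial (Fin n) ℂ)
    (h : Ideal.span (Set.range f) = Ideal.span (Set.range F)) : RlI f F 0 where
  ne := by
    rintro ⟨j, hj⟩
    by_contra hcon
    push Not at hcon
    have h1 : Ideal.span (Set.range F) = ⊥ := by
      rw [Ideal.span_eq_bot]
      rintro _ ⟨i, rfl⟩
      exact hcon i
    have h2 : f j ∈ Ideal.span (Set.range f) := Ideal.subset_span ⟨j, rfl⟩
    rw [h, h1] at h2
    exact hj h2
  ntop h1 := by rwa [← h]
  const h1 j := by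
    have h2 : Ideal.span (Set.range f) ≤ RingHom.ker (constantCoeff : MvPolynomial (Fin n) ℂ →+* ℂ) := by
      rw [Ideal.span_le, Set.range_subset_iff]
      exact h1
    have h3 : F j ∈ Ideal.span (Set.range f) := by
      rw [h]
      exact Ideal.subset_span ⟨j, rfl⟩
    exact h2 h3
  glob := by
    unfold DI ZmotI
    rw [cYk_zero, rsk_zero, one_mul, one_mul, ztI_span h]
  loc := by
    unfold DI0 ZmotI
    rw [cYk_zero, rsk_zero, one_mul, one_mul, ztI_span h]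
  pole s₀ _ h1 := by
    rw [← ztI_span h]
    simpa using h1
  lpole s₀ _ h1 := by
    rw [← ztI_span h]
    simpa using h1
  b hf b hb := by
    rw [Nat.cast_zero, map_zero, add_zero, Polynomial.comp_X]
    exact fe_gens f F h hf b hb
  top χ _ R hR := ⟨R, by rwa [← ztI_span h], TFI.refl R⟩
  ltop χ _ R hR := ⟨R, by rwa [← ztI_span h], TFI.refl R⟩

theorem RlI.step {n r m s : ℕ} (f : Fin r → MvPolynomial (Fin n) ℂ) (u : MvPolynomial (Fin n) ℂ)
    (F : Fin s → MvPolynomial (Fin m) ℂ) (κ : ℕ) (hu : constantCoeff u = 0)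
    (h : RlI (gs f u) F κ) : RlI f F (κ + 1) where
  ne _ := h.ne (gs_ne f u)
  ntop h1 := h.ntop (ne_top_gs f u h1)
  const h1 := h.const (gs_const f u h1 hu)
  glob := comp_form κ (DI_step f u) h.glob
  loc := comp_form κ (DI0_step f u hu) h.loc
  pole s₀ h0 h2 := by
    have h3 : IsPole (ztI (gs f u) Set.univ) (s₀ - 1) := by
      intro hg
      apply h2
      refine rgI_descend (z_univ f u) h0 ?_ hg
      have e : (cL ℂ - 1) * cL ℂ ^ n = PowerSeries.C ((((Lu ℂ : (MK ℂ)ˣ) : MK ℂ) - 1) *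
          ((Lu ℂ : (MK ℂ)ˣ) : MK ℂ) ^ n) := by
        rw [map_mul, map_sub, map_one, map_pow]
        rfl
      rw [e, Pool.Agent.Y229.MS.rescale_C']
      exact Pool.Agent.W63.MTFin.C_mem _ _
    have h4 := h.pole (s₀ - 1) (by linarith) h3
    push_cast
    rwa [sub_sub, add_comm] at h4
  lpole s₀ h0 h2 := by
    have h3 : IsPole (ztI (gs f u) {0}) (s₀ - 1) := by
      intro hg
      apply h2
      refine rgI_descend (z_zero f u hu) h0 ?_ hg
      rw [map_mul, map_sub, map_one, cY, Pool.Agent.Y229.MS.rescale_C',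
        Pool.Agent.Y229.MS.rescale_X']
      exact (rg ℂ s₀).mul_mem ((rg ℂ s₀).sub_mem (rg ℂ s₀).one_mem
        (Pool.Agent.W63.MTFin.C_mem _ _)) ((rg ℂ s₀).mul_mem
          (Pool.Agent.W63.MTFin.C_mem _ _) (Pool.Agent.W63.MTFin.X_mem _))
    have h4 := h.lpole (s₀ - 1) (by linarith) h3
    push_cast
    rwa [sub_sub, add_comm] at h4
  b hf b hb := by
    rw [← comp_succ]
    exact h.b (gs_ne f u) _ (fe_step f hf u b hb)
  top χ hχ R hR := by
    have h1 : IsTop χ (ztI (gs f u) Set.univ) (topStepI 1 R) := by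
      have h0 := isTop_ideal hχ hR (clM (Set.univ : Set (Pt ℂ (Fin n))))
      have hw : χ (clM (Set.univ : Set (Pt ℂ (Fin n)))) = 1 := by
        rw [clM_univ, map_pow, hχ, one_pow]
      rw [hw, ← z_univ' f u] at h0
      exact h0
    obtain ⟨R', h2, hT⟩ := h.top χ hχ _ h1
    exact ⟨R', h2, TFI.comp κ (TFI.one R) hT⟩
  ltop χ hχ R hR := by
    have h1 : IsTop χ (ztI (gs f u) {0}) (topStepI 1 R) := by
      have h0 := isTop_add (isTop_F χ) (isTop_mul (isTop_add (isTop_one χ)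
        (isTop_neg (isTop_F χ))) (isTop_rescale hR))
      rw [z_zero' f u hu]
      unfold topStepI
      convert h0 using 1
      · ring
      · rw [map_one, map_one]
        ring
    obtain ⟨R', h2, hT⟩ := h.ltop χ hχ _ h1
    exact ⟨R', h2, TFI.comp κ (TFI.one R) hT⟩

/-- There are different variables `x_a`, `y_a` such that every `F_j` is a polynomial of degree at most
one or one of the polynomials `y_a - x_a ^ 2`. -/
def Par {m s : ℕ} (F : Fin s → MvPolynomial (Fin m) ℂ) : Prop :=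
  ∃ (k : ℕ) (x y : Fin k → Fin m), Function.Injective (Sum.elim x y) ∧
    ∀ j, (F j).totalDegree ≤ 1 ∨ ∃ a, F j = X (y a) - X (x a) ^ 2

theorem par_of {m : ℕ} {l : List (MvPolynomial (Fin m) ℂ)} (h : ParL l) : Par l.get := by
  obtain ⟨A, x, y, h1, h2⟩ := h
  have hx : Function.Injective x := fun a b hab =>
    Sum.inl.inj (@h1 (Sum.inl a) (Sum.inl b) hab)
  haveI : Finite A := Finite.of_injective x hx
  obtain ⟨k, ⟨e⟩⟩ := Finite.exists_equiv_fin A
  refine ⟨k, x ∘ e.symm, y ∘ e.symm, ?_, fun j => ?_⟩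
  · have h3 : Sum.elim (x ∘ e.symm) (y ∘ e.symm) =
        Sum.elim x y ∘ (Equiv.sumCongr e.symm e.symm) := by
      funext a
      rcases a with a | a <;> rfl
    rw [h3]
    exact h1.comp (Equiv.injective _)
  · rcases h2 _ (List.get_mem l j) with h3 | ⟨a, h3⟩
    · exact Or.inl h3
    · exact Or.inr ⟨e a, by simpa using h3⟩

/-- **The normal form of an ideal.** -/
theorem exists_par {n r : ℕ} (f : Fin r → MvPolynomial (Fin n) ℂ) :
    ∃ (κ m s : ℕ) (F : Fin s → MvPolynomial (Fin m) ℂ), m = n + κ ∧ Par F ∧ RlI f F κ := by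
  have key := red_ideal (K := ℂ) (P := fun n I => ∀ (r : ℕ) (f : Fin r → MvPolynomial (Fin n) ℂ),
    Ideal.span (Set.range f) = I → ∃ (κ m s : ℕ) (F : Fin s → MvPolynomial (Fin m) ℂ),
      m = n + κ ∧ Par F ∧ RlI f F κ) two_ne_zero ?_ ?_ n _ r f rfl
  · exact key
  · intro n l hl r f hf
    refine ⟨0, n, l.length, l.get, rfl, par_of hl, RlI.refl f _ ?_⟩
    rw [hf]
    congr 1
    ext p
    simp [List.mem_iff_get]
  · intro n I u hu hP r f hf
    obtain ⟨κ, m, s, F, hm, hF, h⟩ := hP (r + 1) (gs f u) (by rw [gs_span, hf])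
    exact ⟨κ + 1, m, s, F, by omega, hF, RlI.step f u F κ hu h⟩

end Pool.Agent.Run7.h768.QI
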