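import Pool.Agent.Run7.h768.QI.Act
import Pool.Agent.Run7.h768.QI.Rel

/-!
# Contact loci with a given point of the normal cone, and the monodromy zeta functions
-/

set_option autoImplicit false

namespace Pool.Agent.Run7.h768.QI

open MvPolynomial Pool.Agent.W428.MOT Pool.Agent.W375.MT Pool.Agent.N101.CB

section
variable {K : Type} [Field K] {n r s : ℕ}

/-- The `m`-jets `φ` with origin `a` and `f_l(φ) = c_l t ^ m + ...` for all `l`. -/
def Cont (f : Fin r → MvPolynomial (Fin n) K) (a : Fin n → K) (c : Fin r → K) (m : ℕ) :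
    Set (Pt K (Fin n × Fin (m + 1))) :=
  {z | (∀ i, z (i, 0) = algebraMap K (AlgebraicClosure K) (a i)) ∧
    ∀ l, ∀ j ≤ m, PowerSeries.coeff j (aeval (arc z) (f l)) =
      if j = m then algebraMap K (AlgebraicClosure K) (c l) else 0}

theorem constr_Cont (f : Fin r → MvPolynomial (Fin n) K) (a : Fin n → K) (c : Fin r → K)
    (m : ℕ) : Constr (Cont f a c m) := by
  unfold Cont
  refine Constr.and (Constr.all fun i => Constr.eq (IsPF.coord _) (IsPF.const _))
    (Constr.all fun l => Constr.allLe m fun j _ => ?_)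
  by_cases h : j = m
  · simp only [if_pos h]
    exact Constr.eq (IsPA.aeval (fun i z => arc z i) (fun i => isPA_arc i) (f l) j)
      (IsPF.const _)
  · simp only [if_neg h]
    exact Constr.eqz (IsPA.aeval (fun i z => arc z i) (fun i => isPA_arc i) (f l) j)

theorem orig_aeval {m : ℕ} {a : Fin n → K} {z : Pt K (Fin n × Fin (m + 1))}
    (h : ∀ i, z (i, 0) = algebraMap K (AlgebraicClosure K) (a i)) (p : MvPolynomial (Fin n) K) :
    PowerSeries.coeff 0 (aeval (arc z) p) = algebraMap K (AlgebraicClosure K) (aeval a p) := by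
  rw [Pool.Agent.Z864.MS.coeff_zero_aeval]
  have h1 : (fun i => z (i, 0)) = fun i => algebraMap K (AlgebraicClosure K) (a i) := funext h
  rw [h1]
  exact aeval_algebraMap_apply (AlgebraicClosure K) a p

theorem coeff0_mul (α β : PowerSeries (AlgebraicClosure K)) :
    PowerSeries.coeff 0 (α * β) = PowerSeries.coeff 0 α * PowerSeries.coeff 0 β := by
  rw [PowerSeries.coeff_zero_eq_constantCoeff_apply, PowerSeries.coeff_zero_eq_constantCoeff_apply,
    PowerSeries.coeff_zero_eq_constantCoeff_apply, map_mul]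

/-! ### change of generators -/

theorem cont_lin (f : Fin r → MvPolynomial (Fin n) K) (a : Fin n → K) (c : Fin r → K) {m : ℕ}
    {z : Pt K (Fin n × Fin (m + 1))} (hz : z ∈ Cont f a c m)
    (A : Fin r → MvPolynomial (Fin n) K) {j : ℕ} (hj : j ≤ m) :
    PowerSeries.coeff j (aeval (arc z) (∑ l, A l * f l)) =
      if j = m then algebraMap K (AlgebraicClosure K) (∑ l, aeval a (A l) * c l) else 0 := by
  have h1 : ∀ l, PowerSeries.coeff j (aeval (arc z) (A l * f l)) =
      if j = m then algebraMap K (AlgebraicClosure K) (aeval a (A l) * c l) else 0 := by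
    intro l
    have h2 : (PowerSeries.X : PowerSeries (AlgebraicClosure K)) ^ m ∣ aeval (arc z) (f l) := by
      rw [PowerSeries.X_pow_dvd_iff]
      intro k hk
      rw [hz.2 l k hk.le, if_neg hk.ne]
    obtain ⟨β, hβ⟩ := h2
    rw [map_mul, hβ, mul_left_comm, PowerSeries.coeff_X_pow_mul']
    by_cases h : j = m
    · subst h
      rw [if_pos le_rfl, if_pos rfl, Nat.sub_self, coeff0_mul, orig_aeval hz.1, map_mul]
      congr 1
      have h3 := hz.2 l j le_rfl
      rw [hβ, PowerSeries.coeff_X_pow_mul', if_pos le_rfl, Nat.sub_self, if_pos rfl] at h3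
      exact h3
    · rw [if_neg h, if_neg (by omega)]
  rw [map_sum, map_sum, Finset.sum_congr rfl fun l _ => h1 l]
  by_cases h : j = m
  · simp only [if_pos h, map_sum]
  · simp only [if_neg h, Finset.sum_const_zero]

/-- The contact loci do not depend on the generators. -/
theorem cont_span {f : Fin r → MvPolynomial (Fin n) K} {F : Fin s → MvPolynomial (Fin n) K}
    (h : Ideal.span (Set.range f) = Ideal.span (Set.range F)) (a : Fin n → K) (c : Fin s → K) :
    (∀ m, Cont F a c m = ∅) ∨ ∃ c' : Fin r → K, (c' = 0 → c = 0) ∧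
      ∀ m, Cont F a c m = Cont f a c' m := by
  have h1 : ∀ l, ∃ A : Fin r → MvPolynomial (Fin n) K, ∑ j, A j * f j = F l := by
    intro l
    have h2 : F l ∈ Ideal.span (Set.range f) := by
      rw [h]
      exact Ideal.subset_span ⟨l, rfl⟩
    exact Ideal.mem_span_range_iff_exists_fun.1 h2
  have h1' : ∀ j, ∃ B : Fin s → MvPolynomial (Fin n) K, ∑ l, B l * F l = f j := by
    intro j
    have h2 : f j ∈ Ideal.span (Set.range F) := by
      rw [← h]
      exact Ideal.subset_span ⟨j, rfl⟩
    exact Ideal.mem_span_range_iff_exists_fun.1 h2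
  choose A hA using h1
  choose B hB using h1'
  set c' : Fin r → K := fun j => ∑ l, aeval a (B j l) * c l with hc'
  have h3 : ∀ m, Cont F a c m ⊆ Cont f a c' m := by
    intro m z hz
    refine ⟨hz.1, fun j k hk => ?_⟩
    rw [← hB j]
    exact cont_lin F a c hz (B j) hk
  by_cases hne : ∀ m, Cont F a c m = ∅
  · exact Or.inl hne
  right
  push Not at hne
  obtain ⟨m₀, z₀, hz₀⟩ := hne
  have h4 : ∀ l, ∑ j, aeval a (A l j) * c' j = c l := by
    intro l
    have h5 := cont_lin f a c' (h3 m₀ hz₀) (A l) (le_refl m₀)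
    rw [hA l, hz₀.2 l m₀ le_rfl, if_pos rfl, if_pos rfl] at h5
    exact ((algebraMap K (AlgebraicClosure K)).injective h5).symm
  refine ⟨c', fun h0 => ?_, fun m => Set.Subset.antisymm (h3 m) ?_⟩
  · funext l
    rw [← h4 l, h0]
    simp
  · intro z hz
    refine ⟨hz.1, fun l k hk => ?_⟩
    rw [← h4 l, ← hA l]
    exact cont_lin f a c' hz (A l) hk

/-! ### the graph step -/

/-- the lift of a jet to `w = u + v t ^ m` -/
noncomputable def grm (u : MvPolynomial (Fin n) K) (v : K) {m : ℕ}
    (z : Pt K (Fin n × Fin (m + 1))) : Pt K (Fin (n + 1) × Fin (m + 1)) :=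
  fun p => Fin.lastCases (motive := fun _ => AlgebraicClosure K)
    (PowerSeries.coeff (p.2 : ℕ) (aeval (arc z) u) +
      if (p.2 : ℕ) = m then algebraMap K (AlgebraicClosure K) v else 0)
    (fun i => z (i, p.2)) p.1

theorem grm_castSucc (u : MvPolynomial (Fin n) K) (v : K) {m : ℕ}
    (z : Pt K (Fin n × Fin (m + 1))) (i : Fin n) (j : Fin (m + 1)) :
    grm u v z (Fin.castSucc i, j) = z (i, j) := by
  unfold grm
  rw [Fin.lastCases_castSucc]

theorem grm_last (u : MvPolynomial (Fin n) K) (v : K) {m : ℕ}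
    (z : Pt K (Fin n × Fin (m + 1))) (j : Fin (m + 1)) :
    grm u v z (Fin.last n, j) = PowerSeries.coeff (j : ℕ) (aeval (arc z) u) +
      if (j : ℕ) = m then algebraMap K (AlgebraicClosure K) v else 0 := by
  unfold grm
  rw [Fin.lastCases_last]

theorem prj_grm (u : MvPolynomial (Fin n) K) (v : K) {m : ℕ}
    (z : Pt K (Fin n × Fin (m + 1))) : prj (grm u v z) = z := by
  funext p
  exact grm_castSucc u v z p.1 p.2

theorem mem_cont_gs (f : Fin r → MvPolynomial (Fin n) K) (u : MvPolynomial (Fin n) K)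
    (a : Fin (n + 1) → K) (c : Fin (r + 1) → K) {m : ℕ}
    (z : Pt K (Fin (n + 1) × Fin (m + 1))) :
    z ∈ Cont (gs f u) a c m ↔
      prj z ∈ Cont f (fun i => a (Fin.castSucc i)) (fun l => c (Fin.castSucc l)) m ∧
      z (Fin.last n, 0) = algebraMap K (AlgebraicClosure K) (a (Fin.last n)) ∧
      ∀ j : Fin (m + 1), z (Fin.last n, j) =
        PowerSeries.coeff (j : ℕ) (aeval (arc (prj z)) u) +
          if (j : ℕ) = m then algebraMap K (AlgebraicClosure K) (c (Fin.last r)) else 0 := by
  constructor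
  · rintro ⟨h1, h2⟩
    refine ⟨⟨fun i => h1 _, fun l j hj => ?_⟩, h1 _, fun j => ?_⟩
    · have h3 := h2 (Fin.castSucc l) j hj
      rwa [gs_castSucc, aeval_prj] at h3
    · have h3 := h2 (Fin.last r) j (Nat.lt_succ_iff.1 j.2)
      rw [gs_last, map_sub, aeval_X, aeval_prj, map_sub, coeff_arc _ _ _ j.2,
        sub_eq_iff_eq_add'] at h3
      exact h3
  · rintro ⟨⟨h1, h2⟩, h0, h3⟩
    refine ⟨fun i => ?_, fun l j hj => ?_⟩
    · refine Fin.lastCases ?_ (fun i => ?_) i
      · exact h0
      · exact h1 i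
    · refine Fin.lastCases ?_ (fun l => ?_) l
      · have hj' : j < m + 1 := Nat.lt_succ_of_le hj
        rw [gs_last, map_sub, aeval_X, aeval_prj, map_sub, coeff_arc _ _ _ hj',
          sub_eq_iff_eq_add']
        exact h3 ⟨j, hj'⟩
      · rw [gs_castSucc, aeval_prj]
        exact h2 l j hj

/-- **The contact loci of `(I, w - u)`.** -/
theorem chi_cont_gs {R : Type} [CommRing R] (M : Meas K R) (f : Fin r → MvPolynomial (Fin n) K)
    (u : MvPolynomial (Fin n) K) (a : Fin (n + 1) → K) (c : Fin (r + 1) → K)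
    (ha : a (Fin.last n) = aeval (fun i => a (Fin.castSucc i)) u) {m : ℕ} (hm : 0 < m) :
    M.χ _ (Cont (gs f u) a c m) =
      M.χ _ (Cont f (fun i => a (Fin.castSucc i)) (fun l => c (Fin.castSucc l)) m) := by
  refine M.iso _ _ (constr_Cont _ _ _ _) (constr_Cont _ _ _ _) prj (grm u (c (Fin.last r)))
    (regularOn_poly (fun p => IsPF.coord _) _) (regularOn_poly (fun p => ?_) _) ?_ ?_ ?_ ?_
  · obtain ⟨i, j⟩ := p
    refine Fin.lastCases ?_ (fun i => ?_) i
    · simp only [grm_last]
      refine (IsPA.aeval (fun i z => arc z i) (fun i => isPA_arc i) u j).add ?_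
      by_cases h : (j : ℕ) = m
      · simp only [if_pos h]
        exact IsPF.const _
      · simp only [if_neg h]
        exact IsPF.zero
    · simp only [grm_castSucc]
      exact IsPF.coord _
  · intro z hz
    exact ((mem_cont_gs f u a c z).1 hz).1
  · intro z hz
    rw [mem_cont_gs, prj_grm]
    refine ⟨hz, ?_, fun j => grm_last _ _ _ _⟩
    rw [grm_last, Fin.val_zero, orig_aeval hz.1, if_neg (by omega), add_zero, ha]
  · intro z hz
    have h1 := (mem_cont_gs f u a c z).1 hz
    funext p
    obtain ⟨i, j⟩ := p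
    refine Fin.lastCases ?_ (fun i => ?_) i
    · rw [grm_last, ← h1.2.2 j]
    · rw [grm_castSucc]
      rfl
  · intro z _
    exact prj_grm u _ z

theorem cont_gs_empty (f : Fin r → MvPolynomial (Fin n) K)
    (u : MvPolynomial (Fin n) K) (a : Fin (n + 1) → K) (c : Fin (r + 1) → K)
    (ha : a (Fin.last n) ≠ aeval (fun i => a (Fin.castSucc i)) u) {m : ℕ} (hm : 0 < m) :
    Cont (gs f u) a c m = ∅ := by
  rw [Set.eq_empty_iff_forall_notMem]
  intro z hz
  obtain ⟨h1, h2, h3⟩ := (mem_cont_gs f u a c z).1 hz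
  have h4 := h3 0
  rw [h2, Fin.val_zero, orig_aeval h1.1, if_neg (by omega), add_zero] at h4
  exact ha ((algebraMap K (AlgebraicClosure K)).injective h4)

/-! ### the jets of order larger than `m` -/

theorem arc_scale {m : ℕ} (z : Pt K (Fin n × Fin (m + 1))) (b : AlgebraicClosure K) :
    arc (fun p : Fin n × Fin (m + 1) => b ^ (p.2 : ℕ) * z p) =
      fun i => PowerSeries.rescale b (arc z i) := by
  funext i
  ext j
  rw [PowerSeries.coeff_rescale]
  unfold arc
  rw [PowerSeries.coeff_mk, PowerSeries.coeff_mk]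
  split_ifs with h
  · rfl
  · rw [mul_zero]

theorem aeval_scale {m : ℕ} (z : Pt K (Fin n × Fin (m + 1))) (b : AlgebraicClosure K)
    (p : MvPolynomial (Fin n) K) :
    aeval (arc (fun p : Fin n × Fin (m + 1) => b ^ (p.2 : ℕ) * z p)) p =
      PowerSeries.rescale b (aeval (arc z) p) := by
  rw [arc_scale]
  induction p using MvPolynomial.induction_on with
  | C x =>
    rw [MvPolynomial.algHom_C, MvPolynomial.algHom_C, PowerSeries.algebraMap_apply,
      Pool.Agent.Y229.MS.rescale_C']
  | add p q hp hq => rw [map_add, map_add, map_add, hp, hq]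
  | mul_X p i hp => rw [map_mul, map_mul, map_mul, hp, aeval_X, aeval_X]

theorem aeval_const {m : ℕ} (z : Pt K (Fin n × Fin (m + 1)))
    (hz : ∀ p : Fin n × Fin (m + 1), 0 < (p.2 : ℕ) → z p = 0) (q : MvPolynomial (Fin n) K) :
    aeval (arc z) q = PowerSeries.C (PowerSeries.coeff 0 (aeval (arc z) q)) := by
  have h1 : arc z = fun i => PowerSeries.C (PowerSeries.coeff 0 (arc z i)) := by
    funext i
    ext j
    rcases Nat.eq_zero_or_pos j with rfl | hj
    · simp
    · rw [PowerSeries.coeff_C, if_neg hj.ne']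
      unfold arc
      rw [PowerSeries.coeff_mk]
      split_ifs with h
      · exact hz (i, ⟨j, h⟩) hj
      · rfl
  induction q using MvPolynomial.induction_on with
  | C x =>
    rw [MvPolynomial.algHom_C, PowerSeries.algebraMap_apply]
    simp
  | add p q hp hq =>
    rw [map_add, map_add, map_add, ← hp, ← hq]
  | mul_X p i hp =>
    rw [map_mul, aeval_X]
    have h2 := congrFun h1 i
    rw [coeff0_mul, map_mul, ← hp, ← h2]

/-- The class of the jets of order `> m` with a given origin. -/
theorem chi_cont_zero {R : Type} [CommRing R] (M : Meas K R)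
    (f : Fin r → MvPolynomial (Fin n) K) (a : Fin n → K) {m : ℕ} :
    ((∀ l, aeval a (f l) = 0) → ∃ x : R, M.χ _ (Cont f a 0 m) = 1 + (M.L - 1) * x) ∧
    (¬ (∀ l, aeval a (f l) = 0) → Cont f a 0 m = ∅) := by
  constructor
  · intro ha
    obtain ⟨x, hx⟩ := chi_invariant M (fun p : Fin n × Fin (m + 1) => (p.2 : ℕ))
      (constr_Cont f a 0 m) (by
        intro z hz b _
        refine ⟨fun i => ?_, fun l j hj => ?_⟩
        · show b ^ ((0 : Fin (m + 1)) : ℕ) * z (i, 0) = _
          rw [Fin.val_zero, pow_zero, one_mul, hz.1 i]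
        · rw [aeval_scale, PowerSeries.coeff_rescale, hz.2 l j hj]
          simp)
    refine ⟨x, ?_⟩
    rw [hx]
    congr 1
    set p : Fin n × Fin (m + 1) → K := fun p => if (p.2 : ℕ) = 0 then a p.1 else 0 with hp
    have h1 : {z | z ∈ Cont f a 0 m ∧ ∀ i : Fin n × Fin (m + 1), 0 < (i.2 : ℕ) → z i = 0} =
        {fun i => algebraMap K (AlgebraicClosure K) (p i)} := by
      ext z
      simp only [Set.mem_ofPred_eq, Set.mem_singleton_iff]
      constructor
      · rintro ⟨h2, h3⟩
        funext q
        obtain ⟨i, j⟩ := q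
        rw [hp]
        rcases Nat.eq_zero_or_pos (j : ℕ) with h4 | h4
        · have h5 : j = 0 := Fin.ext h4
          subst h5
          simp only [Fin.val_zero, if_true]
          exact h2.1 i
        · simp only [h4.ne', if_false, map_zero]
          exact h3 (i, j) h4
      · rintro rfl
        have h4 : ∀ q : Fin n × Fin (m + 1), 0 < (q.2 : ℕ) →
            algebraMap K (AlgebraicClosure K) (p q) = 0 := by
          intro q hq
          rw [hp]
          simp only [hq.ne', if_false, map_zero]
        have h5 : ∀ i, algebraMap K (AlgebraicClosure K) (p (i, 0)) =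
            algebraMap K (AlgebraicClosure K) (a i) := by
          intro i
          rw [hp]
          simp only [Fin.val_zero, if_true]
        refine ⟨⟨h5, fun l j hj => ?_⟩, h4⟩
        rw [aeval_const _ h4, orig_aeval h5, ha l, map_zero, map_zero, map_zero]
        simp
    rw [h1]
    exact chi_pt M p
  · intro ha
    rw [Set.eq_empty_iff_forall_notMem]
    intro z hz
    apply ha
    intro l
    have h1 := hz.2 l 0 (Nat.zero_le m)
    rw [orig_aeval hz.1] at h1
    have h2 : algebraMap K (AlgebraicClosure K) (aeval a (f l)) = 0 := by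
      rw [h1]
      split_ifs <;> simp
    exact (map_eq_zero_iff _ (algebraMap K (AlgebraicClosure K)).injective).1 h2

end

end Pool.Agent.Run7.h768.QI
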