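import Pool.Agent.Run7.h768.QI.Lef

/-!
# The motivic monodromy conjecture at the origin: descent
-/

set_option autoImplicit false

namespace Pool.Agent.Run7.h768.QI

open MvPolynomial Pool.Agent.W428.MOT Pool.Agent.W375.MT Pool.Agent.N101.CB

/-- The series `∑_{m ≥ 1} χ(X_m) t ^ m`, where `X_m = Cont f a c m` is the variety of the `m`-jets `φ` with
origin `a` and `f_l(φ) = c_l t ^ m + ...`. If `χ` is the Euler characteristic and `(a, c)`, `c ≠ 0`, is a point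
`y` of the normal cone of `Y = V(f_1, ..., f_r)` (embedded by the `f_l`) then the `χ(X_m)` are the
Lefschetz numbers of the iterates `M_y ^ m` of the monodromy of Verdier's specialisation, so that the
series is `- t (d/dt) log Z^mon_{I, e}(t)`, `e` the image of `y` in `P(C_Y)`. For other `(a, c)` it is zero. -/
noncomputable def Lef (χ : MK ℂ →+* ℂ) {n r : ℕ} (f : Fin r → MvPolynomial (Fin n) ℂ)
    (a : Fin n → ℂ) (c : Fin r → ℂ) : PowerSeries ℂ :=
  PowerSeries.mk fun m => if m = 0 then 0 else χ (clM (Cont f a c m))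

/-- `ω` is a pole of the series `Lef`, which is a rational function, that is a zero or a pole of
`Z^mon_{I, e}(t)`, `e` the point of `P(C_Y)` given by `(a, c)`. -/
def Eig (χ : MK ℂ →+* ℂ) {n r : ℕ} (f : Fin r → MvPolynomial (Fin n) ℂ)
    (a : Fin n → ℂ) (c : Fin r → ℂ) (ω : ℂ) : Prop :=
  ¬ ∃ p q : Polynomial ℂ, q.eval ω ≠ 0 ∧ (q : PowerSeries ℂ) * Lef χ f a c = (p : PowerSeries ℂ)

section
variable {χ : MK ℂ →+* ℂ} {n r s : ℕ}

theorem not_eig_zero (f : Fin r → MvPolynomial (Fin n) ℂ) (a : Fin n → ℂ) (c : Fin r → ℂ) (ω : ℂ)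
    (h : Lef χ f a c = 0) : ¬ Eig χ f a c ω := by
  intro h1
  exact h1 ⟨0, 1, by simp, by rw [h, mul_zero, Polynomial.coe_zero]⟩

theorem clM_empty {ι : Type} [Fintype ι] : clM (∅ : Set (Pt ℂ ι)) = 0 := by
  obtain ⟨M, hM⟩ := clM_meas ℂ
  rw [← hM]
  exact chi_empty M

theorem lef_gs (f : Fin r → MvPolynomial (Fin n) ℂ) (u : MvPolynomial (Fin n) ℂ)
    (a : Fin (n + 1) → ℂ) (c : Fin (r + 1) → ℂ)
    (ha : a (Fin.last n) = aeval (fun i => a (Fin.castSucc i)) u) :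
    Lef χ (gs f u) a c =
      Lef χ f (fun i => a (Fin.castSucc i)) (fun l => c (Fin.castSucc l)) := by
  obtain ⟨M, hM⟩ := clM_meas ℂ
  unfold Lef
  congr 1
  funext m
  by_cases h : m = 0
  · rw [if_pos h, if_pos h]
  · rw [if_neg h, if_neg h, ← hM, ← hM, chi_cont_gs M f u a c ha (Nat.pos_of_ne_zero h)]

theorem lef_gs_zero (f : Fin r → MvPolynomial (Fin n) ℂ) (u : MvPolynomial (Fin n) ℂ)
    (a : Fin (n + 1) → ℂ) (c : Fin (r + 1) → ℂ)
    (ha : a (Fin.last n) ≠ aeval (fun i => a (Fin.castSucc i)) u) :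
    Lef χ (gs f u) a c = 0 := by
  ext m
  unfold Lef
  rw [PowerSeries.coeff_mk, map_zero]
  by_cases h : m = 0
  · rw [if_pos h]
  · rw [if_neg h, cont_gs_empty f u a c ha (Nat.pos_of_ne_zero h), clM_empty, map_zero]

theorem not_eig_cone (hχ : χ ((Lu ℂ : (MK ℂ)ˣ) : MK ℂ) = 1) (f : Fin r → MvPolynomial (Fin n) ℂ)
    (a : Fin n → ℂ) {ω : ℂ} (hω : ω ≠ 1) : ¬ Eig χ f a 0 ω := by
  obtain ⟨M, hM, hL⟩ := clM_full ℂ
  by_cases ha : ∀ l, aeval a (f l) = 0
  · intro h1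
    refine h1 ⟨Polynomial.X, 1 - Polynomial.X, ?_, ?_⟩
    · rw [Polynomial.eval_sub, Polynomial.eval_one, Polynomial.eval_X]
      exact sub_ne_zero.2 hω.symm
    · have h2 : ∀ m, m ≠ 0 → PowerSeries.coeff m (Lef χ f a 0) = 1 := by
        intro m hm
        unfold Lef
        rw [PowerSeries.coeff_mk, if_neg hm, ← hM]
        obtain ⟨x, hx⟩ := (chi_cont_zero M f a (m := m)).1 ha
        rw [hx, map_add, map_mul, map_sub, map_one, hL, hχ, sub_self, zero_mul, add_zero]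
      have h0 : PowerSeries.coeff 0 (Lef χ f a 0) = 0 := by
        unfold Lef
        rw [PowerSeries.coeff_mk, if_pos rfl]
      rw [Polynomial.coe_sub, Polynomial.coe_one, Polynomial.coe_X, sub_mul, one_mul]
      ext m
      rcases m with _ | m
      · rw [map_sub, PowerSeries.coeff_zero_X_mul, h0, sub_zero]
        simp
      · rw [map_sub, PowerSeries.coeff_succ_X_mul, h2 _ (Nat.succ_ne_zero m)]
        rcases m with _ | m
        · rw [h0, sub_zero]
          simp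
        · rw [h2 _ (Nat.succ_ne_zero m), sub_self, PowerSeries.coeff_X,
            if_neg (by omega)]
  · apply not_eig_zero
    ext m
    unfold Lef
    rw [PowerSeries.coeff_mk, map_zero]
    by_cases h : m = 0
    · rw [if_pos h]
    · rw [if_neg h, (chi_cont_zero M f a (m := m)).2 ha, clM_empty, map_zero]

/-- The relation between the monodromy zeta functions of `f` and of `F`: the points over `a'` and over
the points `a` with `a ∘ π = a'` have the same zeros and poles, except perhaps `1`. -/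
def EigRel (χ : MK ℂ →+* ℂ) {n r m s : ℕ} (f : Fin r → MvPolynomial (Fin n) ℂ)
    (F : Fin s → MvPolynomial (Fin m) ℂ) (π : Fin n → Fin m) : Prop :=
  ∀ ω : ℂ, ω ≠ 1 →
    (∀ (a : Fin m → ℂ) (c : Fin s → ℂ), c ≠ 0 → Eig χ F a c ω →
      ∃ c' : Fin r → ℂ, c' ≠ 0 ∧ Eig χ f (a ∘ π) c' ω) ∧
    (∀ (a' : Fin n → ℂ) (c' : Fin r → ℂ), c' ≠ 0 → Eig χ f a' c' ω →
      ∃ (a : Fin m → ℂ) (c : Fin s → ℂ), a ∘ π = a' ∧ c ≠ 0 ∧ Eig χ F a c ω)

theorem eig_span {f : Fin r → MvPolynomial (Fin n) ℂ} {F : Fin s → MvPolynomial (Fin n) ℂ}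
    (h : Ideal.span (Set.range f) = Ideal.span (Set.range F)) (a : Fin n → ℂ) (c : Fin s → ℂ)
    {ω : ℂ} (hc : c ≠ 0) (he : Eig χ F a c ω) : ∃ c' : Fin r → ℂ, c' ≠ 0 ∧ Eig χ f a c' ω := by
  rcases cont_span h a c with h1 | ⟨c', h1, h2⟩
  · exfalso
    refine not_eig_zero F a c ω ?_ he
    ext m
    unfold Lef
    rw [PowerSeries.coeff_mk, map_zero, h1 m, clM_empty, map_zero, ite_self]
  · refine ⟨c', fun h3 => hc (h1 h3), ?_⟩
    have h3 : Lef χ f a c' = Lef χ F a c := by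
      unfold Lef
      congr 1
      funext m
      rw [h2 m]
    unfold Eig at he ⊢
    rw [h3]
    exact he

theorem EigRel.refl {f : Fin r → MvPolynomial (Fin n) ℂ} {F : Fin s → MvPolynomial (Fin n) ℂ}
    (h : Ideal.span (Set.range f) = Ideal.span (Set.range F)) : EigRel χ f F id := by
  intro ω _
  refine ⟨fun a c hc he => eig_span h a c hc he, fun a' c' hc he => ?_⟩
  obtain ⟨c, h1, h2⟩ := eig_span h.symm a' c' hc he
  exact ⟨a', c, rfl, h1, h2⟩

theorem EigRel.step (hχ : χ ((Lu ℂ : (MK ℂ)ˣ) : MK ℂ) = 1) {m : ℕ}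
    (f : Fin r → MvPolynomial (Fin n) ℂ) (u : MvPolynomial (Fin n) ℂ)
    (F : Fin s → MvPolynomial (Fin m) ℂ) {π : Fin (n + 1) → Fin m} (h : EigRel χ (gs f u) F π) :
    EigRel χ f F (π ∘ Fin.castSucc) := by
  intro ω hω
  refine ⟨fun a c hc he => ?_, fun a' c' hc' he => ?_⟩
  · obtain ⟨c1, h1, h2⟩ := (h ω hω).1 a c hc he
    by_cases ha : (a ∘ π) (Fin.last n) = aeval (fun i => (a ∘ π) (Fin.castSucc i)) u
    · unfold Eig at h2
      rw [lef_gs f u _ _ ha] at h2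
      refine ⟨fun l => c1 (Fin.castSucc l), fun h3 => ?_, h2⟩
      rw [h3] at h2
      exact not_eig_cone hχ f _ hω h2
    · exact absurd h2 (not_eig_zero _ _ _ _ (lef_gs_zero f u _ _ ha))
  · set a1 : Fin (n + 1) → ℂ := Fin.snoc (α := fun _ => ℂ) a' (aeval a' u) with ha1
    set c1 : Fin (r + 1) → ℂ := Fin.snoc (α := fun _ => ℂ) c' 0 with hc1
    have e1 : (fun i => a1 (Fin.castSucc i)) = a' := by
      funext i
      rw [ha1, Fin.snoc_castSucc (α := fun _ => ℂ)]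
    have e2 : (fun l => c1 (Fin.castSucc l)) = c' := by
      funext i
      rw [hc1, Fin.snoc_castSucc (α := fun _ => ℂ)]
    have e3 : a1 (Fin.last n) = aeval (fun i => a1 (Fin.castSucc i)) u := by
      rw [e1, ha1, Fin.snoc_last (α := fun _ => ℂ)]
    have h1 : Eig χ (gs f u) a1 c1 ω := by
      unfold Eig at he ⊢
      rw [lef_gs f u _ _ e3, e1, e2]
      exact he
    have h2 : c1 ≠ 0 := by
      intro h3
      apply hc'
      rw [← e2, h3]
      rfl
    obtain ⟨a, c, h4, h5, h6⟩ := (h ω hω).2 a1 c1 h2 h1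
    refine ⟨a, c, ?_, h5, h6⟩
    rw [← Function.comp_assoc, h4]
    exact e1

/-- **The normal form of an ideal, with the monodromy zeta functions.** -/
theorem exists_par' (hχ : χ ((Lu ℂ : (MK ℂ)ˣ) : MK ℂ) = 1)
    (f : Fin r → MvPolynomial (Fin n) ℂ) :
    ∃ (κ m s : ℕ) (F : Fin s → MvPolynomial (Fin m) ℂ) (π : Fin n → Fin m), m = n + κ ∧ Par F ∧
      RlI f F κ ∧ EigRel χ f F π := by
  have key := red_ideal (K := ℂ) (P := fun n I => ∀ (r : ℕ) (f : Fin r → MvPolynomial (Fin n) ℂ),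
    Ideal.span (Set.range f) = I → ∃ (κ m s : ℕ) (F : Fin s → MvPolynomial (Fin m) ℂ)
      (π : Fin n → Fin m), m = n + κ ∧ Par F ∧ RlI f F κ ∧ EigRel χ f F π)
    two_ne_zero ?_ ?_ n _ r f rfl
  · exact key
  · intro n l hl r f hf
    have h : Ideal.span (Set.range f) = Ideal.span (Set.range l.get) := by
      rw [hf]
      congr 1
      ext p
      simp [List.mem_iff_get]
    exact ⟨0, n, l.length, l.get, id, rfl, par_of hl, RlI.refl f _ h, EigRel.refl h⟩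
  · intro n I u hu hP r f hf
    obtain ⟨κ, m, s, F, π, hm, hF, h, h'⟩ := hP (r + 1) (gs f u) (by rw [gs_span, hf])
    exact ⟨κ + 1, m, s, F, π ∘ Fin.castSucc, by omega, hF, RlI.step f u F κ hu h,
      EigRel.step hχ f u F h'⟩

end

/-- Q1 for the germ at `0` of the ideal generated by the `f_j`, for the poles which are not integers:
if `𝕃 ^ (-s₀)` is a pole of `Z^mot_I(T)`, `s₀ ∈ ℚ \ ℤ`, then there are `e ∈ P(C_Y)` over points of `Y` arbitrarily
near to `0` such that `exp(2 π i s₀)` is a zero or a pole of `Z^mon_{I, e}`. (All the poles are negative; for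
integers `s₀` the statement is trivial, as `1` is a zero of `Z^mon_{I, e}` for general `e`.) -/
def MonFor (χ : MK ℂ →+* ℂ) {n r : ℕ} (f : Fin r → MvPolynomial (Fin n) ℂ) : Prop :=
  ∀ s₀ : ℚ, s₀ < 0 → (∀ k : ℤ, s₀ ≠ k) → IsPole (ZmotI f {0}) s₀ → ∀ ε : ℝ, 0 < ε →
    ∃ (a : Fin n → ℂ) (c : Fin r → ℂ), (∀ i, ‖a i‖ < ε) ∧ c ≠ 0 ∧
      Eig χ f a c (Complex.exp (2 * Real.pi * Complex.I * (s₀ : ℂ)))

theorem isPole_ZmotI {n r : ℕ} (f : Fin r → MvPolynomial (Fin n) ℂ) (W : Set (Pt ℂ (Fin n)))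
    (s₀ : ℚ) : IsPole (ZmotI f W) s₀ ↔ IsPole (ztI f W) s₀ := by
  unfold IsPole ZmotI
  rw [not_iff_not]
  constructor
  · intro h
    have h1 := (ratRing ℂ {p : ℤ × ℤ | 0 < p.2 ∧ (p.1 : ℚ) / p.2 ≠ s₀}).mul_mem
      (Pool.Agent.W63.MTFin.C_mem _ (((Lu ℂ) ^ (n : ℤ) : (MK ℂ)ˣ) : MK ℂ)) h
    rw [← mul_assoc, ← map_mul, ← Units.val_mul, ← zpow_add, add_neg_cancel, zpow_zero,
      Units.val_one, map_one, one_mul] at h1
    exact h1
  · intro h
    exact (ratRing ℂ _).mul_mem (Pool.Agent.W63.MTFin.C_mem _ _) h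

theorem monFor_of {χ : MK ℂ →+* ℂ} {n r m s : ℕ} {f : Fin r → MvPolynomial (Fin n) ℂ}
    {F : Fin s → MvPolynomial (Fin m) ℂ} {κ : ℕ} {π : Fin n → Fin m} (h : RlI f F κ)
    (h' : EigRel χ f F π) (hF : MonFor χ F) : MonFor χ f := by
  intro s₀ h0 h1 h2 ε hε
  have h3 : IsPole (ZmotI F {0}) (s₀ - κ) := by
    rw [isPole_ZmotI] at h2 ⊢
    exact h.lpole s₀ h0 h2
  have hk : (0 : ℚ) ≤ κ := Nat.cast_nonneg κ
  obtain ⟨a, c, h4, h5, h6⟩ := hF (s₀ - κ) (by linarith) (fun k hk' => h1 (k + κ) (by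
    push_cast
    linarith)) h3 ε hε
  have e1 : Complex.exp (2 * Real.pi * Complex.I * ((s₀ - κ : ℚ) : ℂ)) =
      Complex.exp (2 * Real.pi * Complex.I * (s₀ : ℂ)) := by
    rw [Complex.exp_eq_exp_iff_exists_int]
    refine ⟨-(κ : ℤ), ?_⟩
    push_cast
    ring
  rw [e1] at h6
  have e2 : Complex.exp (2 * Real.pi * Complex.I * (s₀ : ℂ)) ≠ 1 := by
    intro h7
    obtain ⟨k, hk⟩ := Complex.exp_eq_one_iff.1 h7
    apply h1 k
    have h8 : (2 * Real.pi * Complex.I : ℂ) ≠ 0 := by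
      simp [Real.pi_ne_zero]
    have h9 : (s₀ : ℂ) = (k : ℂ) := by
      apply mul_left_cancel₀ h8
      rw [hk]
      ring
    exact_mod_cast h9
  obtain ⟨c', h7, h8⟩ := (h' _ e2).1 a c h5 h6
  exact ⟨a ∘ π, c', fun i => h4 _, h7, h8⟩

end Pool.Agent.Run7.h768.QI
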