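import Pool.Agent.Run7.h768.QI.Jets

/-!
# The zeta function of an ideal does not depend on the generators
-/

set_option autoImplicit false

namespace Pool.Agent.Run7.h768.QI

open MvPolynomial Pool.Agent.W428.MOT Pool.Agent.N101.CB

section
variable {K : Type} [Field K] {n r s : ℕ}

theorem tlI_iff (f : Fin r → MvPolynomial (Fin n) K) (W : Set (Pt K (Fin n))) (i N : ℕ)
    (z : Pt K (Fin n × Fin (N + 1))) :
    z ∈ TlI f W i N ↔ (fun i => z (i, 0)) ∈ W ∧ Ideal.span (Set.range f) ≤
      (Ideal.span {(PowerSeries.X : PowerSeries (AlgebraicClosure K)) ^ i}).comap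
        (aeval (arc z) : MvPolynomial (Fin n) K →ₐ[K] PowerSeries (AlgebraicClosure K)) := by
  unfold TlI
  rw [Set.mem_ofPred_eq, Ideal.span_le, Set.range_subset_iff]
  refine and_congr Iff.rfl (forall_congr' fun l => ?_)
  rw [SetLike.mem_coe, Ideal.mem_comap, Ideal.mem_span_singleton, PowerSeries.X_pow_dvd_iff]

theorem tlI_span {f : Fin r → MvPolynomial (Fin n) K} {g : Fin s → MvPolynomial (Fin n) K}
    (h : Ideal.span (Set.range f) = Ideal.span (Set.range g)) (W : Set (Pt K (Fin n)))
    (i N : ℕ) : TlI f W i N = TlI g W i N := by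
  ext z
  rw [tlI_iff, tlI_iff, h]

theorem jetI_span {f : Fin r → MvPolynomial (Fin n) K} {g : Fin s → MvPolynomial (Fin n) K}
    (h : Ideal.span (Set.range f) = Ideal.span (Set.range g)) (W : Set (Pt K (Fin n)))
    (N : ℕ) : JetI f W N = JetI g W N := by
  rw [jetI_eq, jetI_eq, tlI_span h, tlI_span h]

theorem ztI_span {f : Fin r → MvPolynomial (Fin n) K} {g : Fin s → MvPolynomial (Fin n) K}
    (h : Ideal.span (Set.range f) = Ideal.span (Set.range g)) (W : Set (Pt K (Fin n))) :
    ztI f W = ztI g W := by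
  unfold ztI
  congr 1
  funext N
  rw [jetI_span h]

theorem wx_univ : Wx (Set.univ : Set (Pt K (Fin n))) = Set.univ := by
  ext w
  simp [Wx]

theorem w0_zero : W0 ({0} : Set (Pt K (Fin n))) = {0} := by
  ext w
  simp only [W0, Set.mem_ofPred_eq, Set.mem_singleton_iff]
  constructor
  · rintro ⟨h1, h2⟩
    funext i
    refine Fin.lastCases ?_ (fun i => ?_) i
    · exact h2
    · exact congrFun h1 i
  · rintro rfl
    exact ⟨rfl, rfl⟩

theorem ne_top_gs (f : Fin r → MvPolynomial (Fin n) K) (u : MvPolynomial (Fin n) K)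
    (h : Ideal.span (Set.range f) ≠ ⊤) : Ideal.span (Set.range (gs f u)) ≠ ⊤ := by
  intro h1
  apply h
  have h3 : (Fin.snoc X u : Fin (n + 1) → MvPolynomial (Fin n) K) ∘ Fin.castSucc = X := by
    funext i
    exact Fin.snoc_castSucc (α := fun _ => MvPolynomial (Fin n) K) _ _ _
  have h4 : Ideal.span (Set.range (gs f u)) ≤ (Ideal.span (Set.range f)).comap
      (aeval (Fin.snoc X u : Fin (n + 1) → MvPolynomial (Fin n) K) :
        MvPolynomial (Fin (n + 1)) K →ₐ[K] MvPolynomial (Fin n) K) := by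
    rw [Ideal.span_le, Set.range_subset_iff]
    intro j
    rw [SetLike.mem_coe, Ideal.mem_comap]
    refine Fin.lastCases ?_ (fun j => ?_) j
    · rw [gs_last, map_sub, aeval_X, Fin.snoc_last, aeval_rename, h3, aeval_X_left_apply,
        sub_self]
      exact Ideal.zero_mem _
    · rw [gs_castSucc, aeval_rename, h3, aeval_X_left_apply]
      exact Ideal.subset_span ⟨j, rfl⟩
  rw [Ideal.eq_top_iff_one]
  have h5 : (1 : MvPolynomial (Fin (n + 1)) K) ∈ Ideal.span (Set.range (gs f u)) := by
    rw [h1]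
    exact Submodule.mem_top
  have h6 := h4 h5
  rwa [Ideal.mem_comap, map_one] at h6

end

end Pool.Agent.Run7.h768.QI
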